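import Mathlib

/-!
# Zeros of polynomials in boxes
-/

set_option autoImplicit false

namespace Pool.Agent.X4.VP

open Finset MvPolynomial

/-- zeros in a box -/
theorem sz {n : ℕ} {p : MvPolynomial (Fin n) ℤ} (hp : p ≠ 0) (T : Fin n → Finset ℤ) {t : ℕ}
    (ht : 0 < t) (hT : ∀ i, t ≤ (T i).card) :
    ((Fintype.piFinset T).filter fun x => eval x p = 0).card * t ≤
      (∏ i, (T i).card) * p.totalDegree := by
  have h1 := schwartz_zippel_sup_sum hp T
  have h2 : (p.support.sup fun s ↦ ∑ i, ((s i : NNRat) / ((T i).card : NNRat))) ≤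
      (p.totalDegree : NNRat) / t := by
    apply Finset.sup_le
    intro s hs
    have h3 : ∀ i, ((s i : NNRat) / ((T i).card : NNRat)) ≤ (s i : NNRat) / t := by
      intro i
      apply div_le_div_of_nonneg_left zero_le (by exact_mod_cast ht)
      exact_mod_cast hT i
    refine (Finset.sum_le_sum fun i _ => h3 i).trans ?_
    rw [← Finset.sum_div]
    apply div_le_div_of_nonneg_right _ zero_le
    have h4 := le_totalDegree hs
    rw [Finsupp.sum_fintype _ _ (fun _ => rfl)] at h4
    exact_mod_cast h4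
  have h5 := h1.trans h2
  have hprod : (0 : NNRat) < ∏ i, ((T i).card : NNRat) :=
    Finset.prod_pos fun i _ => by exact_mod_cast lt_of_lt_of_le ht (hT i)
  have ht' : (0 : NNRat) < t := by exact_mod_cast ht
  rw [div_le_div_iff₀ hprod ht'] at h5
  have h6 : ((((Fintype.piFinset T).filter fun x => eval x p = 0).card * t : ℕ) : NNRat) ≤
      (((∏ i, (T i).card) * p.totalDegree : ℕ) : NNRat) := by
    push_cast
    rw [mul_comm (∏ i, ((T i).card : NNRat))]
    exact h5
  exact_mod_cast h6

/-- the polynomial `F (u g)` -/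
noncomputable def sub {m : ℕ} (F : MvPolynomial (Fin m) ℤ) (g : Matrix (Fin m) (Fin m) ℤ) :
    MvPolynomial (Fin m) ℤ :=
  ∑ s ∈ F.support, C (F.coeff s) * ∏ l, (∑ i, C (g i l) * X i) ^ (s l)

theorem eval_sub {m : ℕ} (F : MvPolynomial (Fin m) ℤ) (g : Matrix (Fin m) (Fin m) ℤ)
    (u : Fin m → ℤ) : eval u (sub F g) = eval (fun l => ∑ i, u i * g i l) F := by
  unfold sub
  rw [eval_eq' (fun l => ∑ i, u i * g i l) F, map_sum]
  apply Finset.sum_congr rfl
  intro s _
  rw [map_mul, eval_C, map_prod]
  congr 1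
  apply Finset.prod_congr rfl
  intro l _
  rw [map_pow, map_sum]
  congr 1
  apply Finset.sum_congr rfl
  intro i _
  rw [map_mul, eval_C, eval_X]
  ring

theorem sub_deg {m : ℕ} (F : MvPolynomial (Fin m) ℤ) (g : Matrix (Fin m) (Fin m) ℤ) :
    (sub F g).totalDegree ≤ F.totalDegree := by
  unfold sub
  apply totalDegree_finsetSum_le
  intro s hs
  refine (totalDegree_mul _ _).trans ?_
  rw [totalDegree_C, zero_add]
  refine (totalDegree_finsetProd _ _).trans ?_
  have h1 : ∀ l : Fin m, (((∑ i, C (g i l) * X i : MvPolynomial (Fin m) ℤ)) ^ (s l)).totalDegree ≤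
      s l := by
    intro l
    refine (totalDegree_pow _ _).trans ?_
    have : (∑ i, C (g i l) * X i : MvPolynomial (Fin m) ℤ).totalDegree ≤ 1 := by
      apply totalDegree_finsetSum_le
      intro i _
      refine (totalDegree_mul _ _).trans ?_
      rw [totalDegree_C, zero_add]
      exact (totalDegree_X _).le
    calc s l * _ ≤ s l * 1 := Nat.mul_le_mul_left _ this
      _ = s l := mul_one _
  refine (Finset.sum_le_sum fun l _ => h1 l).trans ?_
  have h4 := le_totalDegree hs
  rwa [Finsupp.sum_fintype _ _ (fun _ => rfl)] at h4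

theorem sub_ne {m : ℕ} {F : MvPolynomial (Fin m) ℤ} (hF : F ≠ 0) {g : Matrix (Fin m) (Fin m) ℤ}
    (hg : g.det ≠ 0) : sub F g ≠ 0 := by
  intro h
  apply hF
  refine funext_set (fun _ : Fin m => Set.range fun z : ℤ => g.det * z)
    (fun _ => Set.infinite_range_of_injective fun a b hab => mul_left_cancel₀ hg hab) ?_
  intro x hx
  have h1 : ∀ i, ∃ z, g.det * z = x i := fun i => hx i (Set.mem_univ i)
  choose z hz using h1
  have h2 : x = fun l => ∑ i, (∑ t, z t * g.adjugate t i) * g i l := by
    funext l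
    have h3 : ∑ i, (∑ t, z t * g.adjugate t i) * g i l = ∑ t, z t * (g.adjugate * g) t l := by
      simp only [Finset.sum_mul, Matrix.mul_apply, Finset.mul_sum]
      rw [Finset.sum_comm]
      exact Finset.sum_congr rfl fun t _ => Finset.sum_congr rfl fun i _ => by ring
    rw [h3, Matrix.adjugate_mul]
    simp only [Matrix.smul_apply, Matrix.one_apply, smul_eq_mul, mul_ite, mul_one, mul_zero]
    simp
    rw [← hz l]
    ring
  rw [h2, ← eval_sub, h, map_zero, map_zero]

end Pool.Agent.X4.VP
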