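import Mathlib
import Pool.Agent.X4.VP.Poly
import Pool.Agent.X4.JB.Cnt2

/-!
# Integer vectors in a box
-/

set_option autoImplicit false

namespace Pool.Agent.X4.VP

open Finset Filter MvPolynomial

theorem box (k : ℕ) (N0 : ℕ) (h6 : 6 ∣ N0) (hN : 0 < N0) (A η : ℝ) (hA : 0 < A) (hη : 0 < η) :
    ∃ X0 : ℝ, ∀ X : ℝ, X0 ≤ X → ∀ us U : Fin (k + 2) → ℝ, (∀ i, X ^ η ≤ U i) →
      |us 1| + U 1 ≤ X ^ A → ∀ u0 : Fin (k + 2) → ℤ, ∃ S : Finset (Fin (k + 2) → ℤ),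
        (∀ u ∈ S, (∀ i, |(u i : ℝ) - us i| ≤ U i) ∧ (∀ i, (N0 : ℤ) ∣ u i - u0 i) ∧
          ∀ ℓ : ℕ, ℓ.Prime → ¬ ℓ ∣ N0 → ¬ ((ℓ : ℤ) ∣ u 0 ∧ (ℓ : ℤ) ∣ u 1)) ∧
        (∏ i, U i) * (1 / (2 * (N0 : ℝ) ^ (k + 2))) ≤ (S.card : ℝ) := by
  classical
  obtain ⟨X1, hX1⟩ := JB.cnt2 N0 h6 hN A η hA hη
  obtain ⟨X2, hX2⟩ := eventually_atTop.1 ((tendsto_rpow_atTop hη).eventually_ge_atTop (N0 : ℝ))
  have hN0 : (0 : ℝ) < N0 := by exact_mod_cast hN
  refine ⟨max X1 X2, fun X hX us U hU hus u0 => ?_⟩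
  have hXN := hX2 X ((le_max_right _ _).trans hX)
  obtain ⟨E, hE, hEc⟩ := hX1 X ((le_max_left _ _).trans hX) (us 0) (us 1) (U 0) (U 1) (hU 0)
    (hU 1) hus (u0 0) (u0 1)
  have hap : ∀ i : Fin k, ∃ k0 : ℤ, ∀ j : ℕ, j < ⌊U i.succ.succ / N0⌋₊ + 1 →
      |((u0 i.succ.succ + N0 * (k0 + j) : ℤ) : ℝ) - us i.succ.succ| ≤ U i.succ.succ := fun i =>
    MK.ap_start (us i.succ.succ) (U i.succ.succ) N0 hN (hXN.trans (hU _)) (u0 i.succ.succ)
  choose k0 hk0 using hap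
  set T : Fin k → Finset ℤ := fun i => (Finset.range (⌊U i.succ.succ / N0⌋₊ + 1)).image
    fun j : ℕ => u0 i.succ.succ + N0 * (k0 i + j) with hT
  have hTc : ∀ i, U i.succ.succ / N0 ≤ ((T i).card : ℝ) := by
    intro i
    rw [hT]
    simp only
    rw [card_image_of_injective, card_range]
    · push_cast
      exact (Nat.lt_floor_add_one _).le
    · intro a b hab
      simp only at hab
      have h1 : (N0 : ℤ) * (k0 i + a) = N0 * (k0 i + b) := by linarith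
      have h2 := mul_left_cancel₀ (show (N0 : ℤ) ≠ 0 by exact_mod_cast hN.ne') h1
      have h3 : (a : ℤ) = b := by linarith
      exact_mod_cast h3
  let ψ : (ℤ × ℤ) × (Fin k → ℤ) → (Fin (k + 2) → ℤ) := fun t =>
    Fin.cons (α := fun _ => ℤ) t.1.1 (Fin.cons (α := fun _ => ℤ) t.1.2 t.2)
  have hψ0 : ∀ t, ψ t 0 = t.1.1 := fun t => rfl
  have hψ1 : ∀ t, ψ t 1 = t.1.2 := fun t => rfl
  have hψ2 : ∀ t (i : Fin k), ψ t i.succ.succ = t.2 i := fun t i => rfl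
  have hψ : Function.Injective ψ := by
    intro t t' h
    have h0 : t.1.1 = t'.1.1 := by rw [← hψ0, ← hψ0, h]
    have h1 : t.1.2 = t'.1.2 := by rw [← hψ1, ← hψ1, h]
    have h2 : t.2 = t'.2 := by
      funext i
      rw [← hψ2, ← hψ2, h]
    exact Prod.ext (Prod.ext h0 h1) h2
  refine ⟨(E ×ˢ Fintype.piFinset T).image ψ, ?_, ?_⟩
  · intro u hu
    rw [mem_image] at hu
    obtain ⟨t, ht, rfl⟩ := hu
    rw [mem_product, Fintype.mem_piFinset] at ht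
    obtain ⟨g1, g2, g3, g4, g5⟩ := hE _ ht.1
    have h2 : ∀ i : Fin k, |((t.2 i : ℤ) : ℝ) - us i.succ.succ| ≤ U i.succ.succ ∧
        (N0 : ℤ) ∣ t.2 i - u0 i.succ.succ := by
      intro i
      have h3 := ht.2 i
      rw [hT, mem_image] at h3
      obtain ⟨j, hj, hj2⟩ := h3
      rw [← hj2]
      refine ⟨hk0 i j (mem_range.1 hj), ⟨k0 i + j, by ring⟩⟩
    refine ⟨fun i => ?_, fun i => ?_, fun ℓ hℓ hℓN => ?_⟩
    · refine Fin.cases ?_ (fun i => Fin.cases ?_ (fun i => ?_) i) i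
      · exact g1
      · exact g2
      · exact (h2 i).1
    · refine Fin.cases ?_ (fun i => Fin.cases ?_ (fun i => ?_) i) i
      · exact g3
      · exact g4
      · exact (h2 i).2
    · exact g5 ℓ hℓ hℓN
  · rw [card_image_of_injective _ hψ, card_product, Fintype.card_piFinset, Nat.cast_mul,
      Nat.cast_prod, Fin.prod_univ_succ, Fin.prod_univ_succ]
    have h1 : ∏ i : Fin k, (U i.succ.succ / N0) ≤ ∏ i : Fin k, ((T i).card : ℝ) :=
      Finset.prod_le_prod (fun i _ => div_nonneg (by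
        have := hU i.succ.succ
        linarith) hN0.le) fun i _ => hTc i
    have h2 : ∏ i : Fin k, (U i.succ.succ / N0) = (∏ i : Fin k, U i.succ.succ) / (N0 : ℝ) ^ k := by
      rw [Finset.prod_div_distrib, Finset.prod_const, Finset.card_univ, Fintype.card_fin]
    rw [h2] at h1
    have h0 : 0 ≤ ∏ i : Fin k, U i.succ.succ := Finset.prod_nonneg fun i _ => by
      have := hU i.succ.succ
      linarith
    calc U 0 * (U (Fin.succ 0) * ∏ i : Fin k, U i.succ.succ) * (1 / (2 * (N0 : ℝ) ^ (k + 2))) =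
        (U 0 * U (Fin.succ 0) * (1 / (2 * (N0 : ℝ) ^ 2))) *
          ((∏ i : Fin k, U i.succ.succ) / (N0 : ℝ) ^ k) := by
          field_simp
          ring
      _ ≤ (E.card : ℝ) * ∏ i : Fin k, ((T i).card : ℝ) := by
          apply mul_le_mul hEc h1 (by positivity) (Nat.cast_nonneg _)

/-- the same off the zeros of a polynomial -/
theorem box2 (k : ℕ) (N0 : ℕ) (h6 : 6 ∣ N0) (hN : 0 < N0) (A η : ℝ) (hA : 0 < A) (hη : 0 < η)
    (d0 : ℕ) :
    ∃ X0 : ℝ, ∀ X : ℝ, X0 ≤ X → ∀ us U : Fin (k + 2) → ℝ, (∀ i, X ^ η ≤ U i) →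
      |us 1| + U 1 ≤ X ^ A → ∀ (u0 : Fin (k + 2) → ℤ) (f : MvPolynomial (Fin (k + 2)) ℤ), f ≠ 0 →
      f.totalDegree ≤ d0 → ∃ S : Finset (Fin (k + 2) → ℤ),
        (∀ u ∈ S, (∀ i, |(u i : ℝ) - us i| ≤ U i) ∧ (∀ i, (N0 : ℤ) ∣ u i - u0 i) ∧
          (∀ ℓ : ℕ, ℓ.Prime → ¬ ℓ ∣ N0 → ¬ ((ℓ : ℤ) ∣ u 0 ∧ (ℓ : ℤ) ∣ u 1)) ∧ eval u f ≠ 0) ∧
        (∏ i, U i) * (1 / (4 * (N0 : ℝ) ^ (k + 2))) ≤ (S.card : ℝ) := by
  classical
  obtain ⟨X1, hX1⟩ := box k N0 h6 hN A η hA hη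
  have hN0 : (0 : ℝ) < N0 := by exact_mod_cast hN
  obtain ⟨X2, hX2⟩ := eventually_atTop.1 ((tendsto_rpow_atTop hη).eventually_ge_atTop
    (4 * (3 : ℝ) ^ (k + 2) * d0 * (N0 : ℝ) ^ (k + 2) + 2))
  refine ⟨max X1 X2, fun X hX us U hU hus u0 f hf hfd => ?_⟩
  have hXη := hX2 X ((le_max_right _ _).trans hX)
  obtain ⟨S, hS, hSc⟩ := hX1 X ((le_max_left _ _).trans hX) us U hU hus u0
  have hc0 : 0 ≤ 4 * (3 : ℝ) ^ (k + 2) * d0 * (N0 : ℝ) ^ (k + 2) := by positivity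
  have hU2 : ∀ i, 2 ≤ U i := fun i => by
    have := hU i
    linarith
  set T : Fin (k + 2) → Finset ℤ := fun i => Finset.Icc ⌈us i - U i⌉ ⌊us i + U i⌋ with hT
  have hTc : ∀ i, ((T i).card : ℝ) ≤ 3 * U i ∧ U i ≤ ((T i).card : ℝ) := by
    intro i
    have h1 := Int.le_ceil (us i - U i)
    have h2 := Int.ceil_lt_add_one (us i - U i)
    have h3 := Int.floor_le (us i + U i)
    have h4 := Int.lt_floor_add_one (us i + U i)
    have h5 : (((T i).card : ℕ) : ℤ) = ⌊us i + U i⌋ + 1 - ⌈us i - U i⌉ := by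
      rw [hT]
      simp only [Int.card_Icc]
      rw [Int.toNat_of_nonneg]
      have h6 : (0 : ℝ) ≤ ((⌊us i + U i⌋ + 1 - ⌈us i - U i⌉ : ℤ) : ℝ) := by
        push_cast
        have := hU2 i
        linarith
      exact_mod_cast h6
    have h7 : ((T i).card : ℝ) = (⌊us i + U i⌋ : ℝ) + 1 - (⌈us i - U i⌉ : ℝ) := by
      exact_mod_cast h5
    have := hU2 i
    rw [h7]
    constructor <;> linarith
  set t : ℕ := ⌊X ^ η⌋₊ with ht
  have hXη0 : 0 ≤ X ^ η := by linarith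
  have ht1 : (t : ℝ) ≤ X ^ η := Nat.floor_le hXη0
  have ht2 : X ^ η < t + 1 := Nat.lt_floor_add_one _
  have ht0 : 0 < t := by
    have : (0 : ℝ) < t := by linarith
    exact_mod_cast this
  have hsz := sz hf T ht0 (fun i => by
    have h1 : (t : ℝ) ≤ ((T i).card : ℝ) := ht1.trans ((hU i).trans (hTc i).2)
    exact_mod_cast h1)
  set Z := (Fintype.piFinset T).filter fun x => eval x f = 0 with hZ
  have hZc : (Z.card : ℝ) ≤ (∏ i, U i) * (1 / (4 * (N0 : ℝ) ^ (k + 2))) := by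
    have h1 : (Z.card : ℝ) * t ≤ (∏ i, ((T i).card : ℝ)) * f.totalDegree := by
      exact_mod_cast hsz
    have h2 : ∏ i, ((T i).card : ℝ) ≤ (3 : ℝ) ^ (k + 2) * ∏ i, U i := by
      have e1 : (3 : ℝ) ^ (k + 2) * ∏ i, U i = ∏ i : Fin (k + 2), (3 * U i) := by
        rw [Finset.prod_mul_distrib, Finset.prod_const, Finset.card_univ, Fintype.card_fin]
      rw [e1]
      exact Finset.prod_le_prod (fun i _ => Nat.cast_nonneg _) fun i _ => (hTc i).1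
    have hP0 : 0 ≤ ∏ i, U i := Finset.prod_nonneg fun i _ => by
      have := hU2 i
      linarith
    have h3 : (f.totalDegree : ℝ) ≤ d0 := by exact_mod_cast hfd
    have h4 : (Z.card : ℝ) * t ≤ (3 : ℝ) ^ (k + 2) * (∏ i, U i) * d0 := by
      refine h1.trans ?_
      apply mul_le_mul h2 h3 (Nat.cast_nonneg _) (by positivity)
    have ht0' : (0 : ℝ) < t := by exact_mod_cast ht0
    have h5 : 4 * (3 : ℝ) ^ (k + 2) * d0 * (N0 : ℝ) ^ (k + 2) ≤ t := by linarith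
    have h6 : (3 : ℝ) ^ (k + 2) * (∏ i, U i) * d0 ≤
        ((∏ i, U i) * (1 / (4 * (N0 : ℝ) ^ (k + 2)))) * t := by
      calc (3 : ℝ) ^ (k + 2) * (∏ i, U i) * d0 = ((∏ i, U i) * (1 / (4 * (N0 : ℝ) ^ (k + 2)))) *
            (4 * (3 : ℝ) ^ (k + 2) * d0 * (N0 : ℝ) ^ (k + 2)) := by field_simp
        _ ≤ _ := by
            apply mul_le_mul_of_nonneg_left h5
            positivity
    exact le_of_mul_le_mul_right (h4.trans h6) ht0'
  refine ⟨S \ Z, ?_, ?_⟩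
  · intro u hu
    rw [Finset.mem_sdiff] at hu
    obtain ⟨g1, g2, g3⟩ := hS u hu.1
    refine ⟨g1, g2, g3, fun h0 => hu.2 ?_⟩
    rw [hZ, mem_filter, Fintype.mem_piFinset]
    refine ⟨fun i => ?_, h0⟩
    rw [hT]
    simp only [Finset.mem_Icc]
    have h1 := abs_le.1 (g1 i)
    constructor
    · apply Int.ceil_le.2
      linarith [h1.1]
    · apply Int.le_floor.2
      linarith [h1.2]
  · have h1 : (S.card : ℝ) ≤ ((S \ Z).card : ℝ) + Z.card := by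
      have := card_le_card_sdiff_add_card (s := S) (t := Z)
      exact_mod_cast this
    have h2 : (∏ i, U i) * (1 / (2 * (N0 : ℝ) ^ (k + 2))) =
        2 * ((∏ i, U i) * (1 / (4 * (N0 : ℝ) ^ (k + 2)))) := by
      field_simp
      norm_num
    linarith

end Pool.Agent.X4.VP
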