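import Mathlib
import Pool.Agent.TH461.SST.Main

/-!
# No short dual vectors
-/

set_option autoImplicit false

namespace Pool.Agent.X4.VP

open Finset Filter Topology Pool.Agent.TH461.SST

/-- `w` and `v` are parallel modulo `p ^ e` -/
def Par {d : ℕ} (p e : ℕ) (v w : Fin d → ℤ) : Prop :=
  ∀ i k, ((p : ℤ) ^ e) ∣ w i * v k - w k * v i

/-- the vector with rational coordinates -/
def qv {d : ℕ} (v : Fin d → ℤ) : Fin d → ℚ := fun i => ((v i : ℤ) : ℚ)

/-- the rank of a subfamily -/
noncomputable def rk {q d : ℕ} (v : Fin q → Fin d → ℤ) (A : Finset (Fin q)) : ℕ :=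
  Module.finrank ℚ (Submodule.span ℚ ((fun j => qv (v j)) '' (A : Set (Fin q))))

theorem rk_le {q d : ℕ} (v : Fin q → Fin d → ℤ) (A : Finset (Fin q)) : rk v A ≤ d := by
  have := Submodule.finrank_le (Submodule.span ℚ ((fun j => qv (v j)) '' (A : Set (Fin q))))
  simpa [rk] using this

/-- a matrix whose rows, except the `k`-th, vanish on `v` -/
def mat {d : ℕ} (k : Fin d) (v : Fin d → ℤ) : Matrix (Fin d) (Fin d) ℤ :=
  fun i j => if i = k then (if j = k then 1 else 0) else
    (if j = i then v k else 0) - (if j = k then v i else 0)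

theorem mat_k {d : ℕ} (k : Fin d) (v x : Fin d → ℤ) : ∑ j, mat k v k j * x j = x k := by
  simp [mat]

theorem mat_ne {d : ℕ} {k i : Fin d} (h : i ≠ k) (v x : Fin d → ℤ) :
    ∑ j, mat k v i j * x j = x i * v k - x k * v i := by
  simp only [mat, if_neg h, sub_mul, Finset.sum_sub_distrib]
  simp [mul_comm]

theorem mat_det {d : ℕ} {k : Fin d} {v : Fin d → ℤ} (hv : v k ≠ 0) : (mat k v).det ≠ 0 := by
  intro h
  obtain ⟨x, hx, hx0⟩ := Matrix.exists_mulVec_eq_zero_iff.2 h
  apply hx
  have h1 : ∀ i, ∑ j, mat k v i j * x j = 0 := fun i => by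
    have := congrFun hx0 i
    simpa [Matrix.mulVec, dotProduct] using this
  have hk : x k = 0 := by rw [← mat_k k v x]; exact h1 k
  funext i
  by_cases hik : i = k
  · rw [hik, hk]; rfl
  · have := h1 i
    rw [mat_ne hik, hk, zero_mul, sub_zero] at this
    exact (mul_eq_zero.1 this).resolve_right hv

/-- dropping a coordinate is injective on a hyperplane -/
theorem rk_drop {q d : ℕ} (v : Fin q → Fin (d + 1) → ℤ) (y : Fin (d + 1) → ℤ) (i0 : Fin (d + 1))
    (hy : y i0 ≠ 0) (A : Finset (Fin q)) (hA : ∀ j ∈ A, ∑ l, y l * v j l = 0) :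
    rk (fun j i => v j (i0.succAbove i)) A = rk v A := by
  set W : Submodule ℚ (Fin (d + 1) → ℚ) :=
    Submodule.span ℚ ((fun j => qv (v j)) '' (A : Set (Fin q))) with hW
  let π : (Fin (d + 1) → ℚ) →ₗ[ℚ] (Fin d → ℚ) := LinearMap.funLeft ℚ ℚ i0.succAbove
  have hmap : W.map π = Submodule.span ℚ
      ((fun j => qv (fun i => v j (i0.succAbove i))) '' (A : Set (Fin q))) := by
    rw [hW, Submodule.map_span, Set.image_image]
    rfl
  let ψ : (Fin (d + 1) → ℚ) →ₗ[ℚ] ℚ := ∑ l, ((y l : ℤ) : ℚ) • LinearMap.proj l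
  have hψ : ∀ x, ψ x = ∑ l, ((y l : ℤ) : ℚ) * x l := by
    intro x
    simp [ψ, LinearMap.sum_apply]
  have hWψ : W ≤ LinearMap.ker ψ := by
    rw [hW, Submodule.span_le]
    rintro _ ⟨j, hj, rfl⟩
    rw [SetLike.mem_coe, LinearMap.mem_ker, hψ]
    have := hA j (by simpa using hj)
    simp only [qv]
    exact_mod_cast this
  have hinj : Function.Injective (π.domRestrict W) := by
    rw [← LinearMap.ker_eq_bot, LinearMap.ker_eq_bot']
    intro x hx
    have h1 : ∀ i, (x : Fin (d + 1) → ℚ) (i0.succAbove i) = 0 := fun i => congrFun hx i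
    have h2 : ψ x = 0 := hWψ x.2
    rw [hψ, Fin.sum_univ_succAbove _ i0] at h2
    simp only [h1, mul_zero, Finset.sum_const_zero, add_zero] at h2
    have h3 : (x : Fin (d + 1) → ℚ) i0 = 0 :=
      (mul_eq_zero.1 h2).resolve_left (by exact_mod_cast hy)
    apply Subtype.ext
    funext i
    rcases Fin.eq_self_or_eq_succAbove i0 i with rfl | ⟨k, rfl⟩
    · exact h3
    · exact h1 k
  have h1 := LinearMap.finrank_range_of_inj hinj
  have h2 : LinearMap.range (π.domRestrict W) = W.map π := by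
    ext z
    simp only [LinearMap.mem_range, Submodule.mem_map, LinearMap.domRestrict_apply]
    constructor
    · rintro ⟨x, hx⟩
      exact ⟨x, x.2, hx⟩
    · rintro ⟨x, hx, hx2⟩
      exact ⟨⟨x, hx⟩, hx2⟩
  rw [h2, hmap] at h1
  exact h1

end Pool.Agent.X4.VP
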