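import Mathlib
import Pool.Agent.X4.VP.NS

/-!
# No short dual vectors: one application of the subspace theorem
-/

set_option autoImplicit false

namespace Pool.Agent.X4.VP

open Finset Filter Topology Pool.Agent.TH461.SST

/-- one application of the subspace theorem -/
theorem step {q d : ℕ} (p : Fin q → ℕ) (hp : ∀ j, (p j).Prime) (hpi : Function.Injective p)
    {θ : ℝ} (hθ : 0 < θ) (hθ1 : θ ≤ 1 / 2) (J : Finset (Fin q)) (v : Fin q → Fin (d + 1) → ℤ)
    (a : Fin q → ℝ) {C K : ℝ} (hv : ∀ j ∈ J, v j ≠ 0)
    (hrk : ∑ j ∈ J, a j ≤ (1 - 2 * θ) * ((d : ℝ) + 1)) (hC : 1 ≤ C) (hK : 1 ≤ K)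
    (X : ℕ → ℝ) (hX : Tendsto X atTop atTop) (e : ℕ → Fin q → ℕ) (w : ℕ → Fin (d + 1) → ℤ)
    (he : ∀ t, ∀ j ∈ J, (p j : ℝ) ^ (e t j) ≤ K * (X t) ^ (a j)) (hw : ∀ t, w t ≠ 0)
    (hpar : ∀ t, ∀ j ∈ J, Par (p j) (e t j) (v j) (w t))
    (hsz : ∀ t i, |(w t i : ℝ)| ≤ C * (∏ j ∈ J, (p j : ℝ) ^ (e t j)) * (X t) ^ (-1 + θ)) :
    ∃ y : Fin (d + 1) → ℤ, y ≠ 0 ∧ ∃ᶠ t in atTop, ∑ l, y l * w t l = 0 := by
  classical
  set Q : ℝ := Real.log C + q * Real.log K with hQ
  have hlC : 0 ≤ Real.log C := Real.log_nonneg hC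
  have hlK : 0 ≤ Real.log K := Real.log_nonneg hK
  have hQ0 : 0 ≤ Q := by positivity
  set N0 : ℝ := (2 / θ) * (((d : ℝ) + 1) * Real.log C + q * Real.log K) + Q + 1 with hN0
  obtain ⟨t0, ht0⟩ := eventually_atTop.1
    ((Real.tendsto_log_atTop.comp hX).eventually_ge_atTop N0 |>.and
      (hX.eventually_gt_atTop 0))
  simp only [Function.comp_apply] at ht0
  -- the index of a nonzero coordinate
  have hex : ∀ j, ∃ k, j ∈ J → v j k ≠ 0 := by
    intro j
    by_cases hj : j ∈ J
    · obtain ⟨k, hk⟩ := Function.ne_iff.1 (hv j hj)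
      exact ⟨k, fun _ => hk⟩
    · exact ⟨0, fun h => absurd h hj⟩
  choose kk hkk using hex
  have hlp : ∀ j, 0 < Real.log (p j) := fun j => Real.log_pos (by exact_mod_cast (hp j).one_lt)
  set S : ℕ → ℝ := fun t => ∑ j ∈ J, (e t j : ℝ) * Real.log (p j) with hS
  have hS0 : ∀ t, 0 ≤ S t := fun t => Finset.sum_nonneg fun j _ =>
    mul_nonneg (Nat.cast_nonneg _) (hlp j).le
  have hprod : ∀ t, Real.log (∏ j ∈ J, (p j : ℝ) ^ (e t j)) = S t := by
    intro t
    rw [Real.log_prod fun j _ => (pow_pos (by exact_mod_cast (hp j).pos) _).ne']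
    simp only [hS, Real.log_pow]
  have hprod0 : ∀ t, 0 < ∏ j ∈ J, (p j : ℝ) ^ (e t j) := fun t =>
    Finset.prod_pos fun j _ => pow_pos (by exact_mod_cast (hp j).pos) _
  have hN1 : 1 ≤ N0 := by
    have : 0 ≤ (2 / θ) * (((d : ℝ) + 1) * Real.log C + q * Real.log K) := by positivity
    rw [hN0]; linarith
  have hS1 : ∀ t, t0 ≤ t → S t ≤ q * Real.log K + (1 - 2 * θ) * ((d : ℝ) + 1) * Real.log (X t) := by
    intro t ht
    obtain ⟨g1, g2⟩ := ht0 t ht
    have h1 : ∀ j ∈ J, (e t j : ℝ) * Real.log (p j) ≤ Real.log K + a j * Real.log (X t) := by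
      intro j hj
      have h2 := Real.log_le_log (pow_pos (by exact_mod_cast (hp j).pos) _) (he t j hj)
      rw [Real.log_pow, Real.log_mul (by linarith) (by positivity), Real.log_rpow g2] at h2
      exact h2
    calc S t ≤ ∑ j ∈ J, (Real.log K + a j * Real.log (X t)) := Finset.sum_le_sum h1
      _ = (J.card : ℝ) * Real.log K + (∑ j ∈ J, a j) * Real.log (X t) := by
          rw [Finset.sum_add_distrib, Finset.sum_const, nsmul_eq_mul, Finset.sum_mul]
      _ ≤ q * Real.log K + (1 - 2 * θ) * ((d : ℝ) + 1) * Real.log (X t) := by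
          have h3 : (J.card : ℝ) ≤ q := by
            have := Finset.card_le_univ J
            rw [Fintype.card_fin] at this
            exact_mod_cast this
          have h4 : 0 ≤ Real.log (X t) := by linarith
          have := mul_le_mul_of_nonneg_right hrk h4
          have := mul_le_mul_of_nonneg_right h3 hlK
          linarith
  have hlogA : ∀ t, t0 ≤ t →
      Real.log (C * (∏ j ∈ J, (p j : ℝ) ^ (e t j)) * (X t) ^ (-1 + θ)) =
        Real.log C + S t + (-1 + θ) * Real.log (X t) := by
    intro t ht
    obtain ⟨g1, g2⟩ := ht0 t ht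
    rw [Real.log_mul (mul_pos (by linarith) (hprod0 t)).ne' (Real.rpow_pos_of_pos g2 _).ne',
      Real.log_mul (by linarith) (hprod0 t).ne', hprod, Real.log_rpow g2]
  have hplaces : Places (1 : Matrix (Fin (d + 1)) (Fin (d + 1)) ℤ)
      (fun j : Fin q => if j ∈ J then mat (kk j) (v j) else 1) p := by
    refine ⟨by simp, fun j => ?_, fun j => (hp j).two_le, fun j j' hjj => ?_⟩
    · by_cases hj : j ∈ J
      · simp only [if_pos hj]
        exact mat_det (hkk j hj)
      · simp [if_neg hj]
    · exact (Nat.coprime_primes (hp j) (hp j')).2 fun h => hjj (hpi h)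
  have hd0 : (0 : ℝ) ≤ d := Nat.cast_nonneg d
  obtain ⟨y, hy, hfr⟩ := Main.subspace (d + 1) q (by omega) 1
    (fun j : Fin q => if j ∈ J then mat (kk j) (v j) else 1) p hplaces ((d : ℝ) + 3) (θ / 2)
    (by linarith) (by positivity) (fun t => Real.log (X (t + t0)))
    ((Real.tendsto_log_atTop.comp hX).comp (tendsto_add_atTop_nat t0))
    (fun t j l => if j ∈ J ∧ l ≠ kk j then e (t + t0) j else 0)
    (fun t _ => C * (∏ j ∈ J, (p j : ℝ) ^ (e (t + t0) j)) * (X (t + t0)) ^ (-1 + θ))
    (by
      intro t
      obtain ⟨g1, g2⟩ := ht0 (t + t0) (by omega)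
      have hN : 0 ≤ Real.log (X (t + t0)) := by linarith
      have hS1' := hS1 (t + t0) (by omega)
      have hS0' := hS0 (t + t0)
      have hQN : Q ≤ Real.log (X (t + t0)) := by
        have : 0 ≤ (2 / θ) * (((d : ℝ) + 1) * Real.log C + q * Real.log K) := by positivity
        rw [hN0] at g1; linarith
      have hqK : q * Real.log K ≤ Q := by rw [hQ]; linarith
      have hSd : S (t + t0) ≤ q * Real.log K + ((d : ℝ) + 1) * Real.log (X (t + t0)) := by
        have : (1 - 2 * θ) * ((d : ℝ) + 1) * Real.log (X (t + t0)) ≤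
            ((d : ℝ) + 1) * Real.log (X (t + t0)) := by
          apply mul_le_mul_of_nonneg_right _ hN
          nlinarith
        linarith
      refine ⟨?_, ?_, ?_, ?_⟩
      · intro j l
        beta_reduce
        split_ifs with h
        · have h1 : (e (t + t0) j : ℝ) * Real.log (p j) ≤ S (t + t0) :=
            Finset.single_le_sum (f := fun j => (e (t + t0) j : ℝ) * Real.log (p j))
              (fun j _ => mul_nonneg (Nat.cast_nonneg _) (hlp j).le) h.1
          have : ((d : ℝ) + 1) * Real.log (X (t + t0)) + Real.log (X (t + t0)) ≤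
              ((d : ℝ) + 3) * Real.log (X (t + t0)) := by nlinarith
          linarith
        · simp only [Nat.cast_zero, zero_mul]
          positivity
      · intro _
        exact mul_pos (mul_pos (by linarith) (hprod0 _)) (Real.rpow_pos_of_pos g2 _)
      · intro _
        beta_reduce
        rw [hlogA (t + t0) (by omega), abs_le]
        constructor
        · nlinarith
        · have h1 : (-1 + θ) * Real.log (X (t + t0)) ≤ 0 :=
            mul_nonpos_of_nonpos_of_nonneg (by linarith) hN
          have h2 : Real.log C + q * Real.log K = Q := hQ.symm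
          nlinarith
      · simp only [hlogA (t + t0) (by omega), Finset.sum_const, Finset.card_univ,
          Fintype.card_fin, nsmul_eq_mul]
        have h1 : ∑ j : Fin q, ∑ l : Fin (d + 1),
            ((if j ∈ J ∧ l ≠ kk j then e (t + t0) j else 0 : ℕ) : ℝ) * Real.log (p j) =
            (d : ℝ) * S (t + t0) := by
          have h2 : ∀ j : Fin q, ∑ l : Fin (d + 1),
              ((if j ∈ J ∧ l ≠ kk j then e (t + t0) j else 0 : ℕ) : ℝ) * Real.log (p j) =
              if j ∈ J then (d : ℝ) * ((e (t + t0) j : ℝ) * Real.log (p j)) else 0 := by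
            intro j
            by_cases hj : j ∈ J
            · simp only [hj, true_and, if_true]
              rw [← Finset.sum_mul]
              have h3 : ∑ l : Fin (d + 1), ((if l ≠ kk j then e (t + t0) j else 0 : ℕ) : ℝ) =
                  (d : ℝ) * (e (t + t0) j : ℝ) := by
                have h4 : ∑ l : Fin (d + 1), ((if l ≠ kk j then e (t + t0) j else 0 : ℕ) : ℝ) =
                    ∑ l ∈ (Finset.univ : Finset (Fin (d + 1))).erase (kk j),
                      (e (t + t0) j : ℝ) := by
                  rw [← Finset.filter_ne' (Finset.univ) (kk j), Finset.sum_filter]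
                  apply Finset.sum_congr rfl
                  intro l _
                  split_ifs <;> simp
                rw [h4, Finset.sum_const, Finset.card_erase_of_mem (Finset.mem_univ _),
                  Finset.card_univ, Fintype.card_fin, nsmul_eq_mul]
                simp
              rw [h3, mul_assoc]
            · simp [hj]
          rw [Finset.sum_congr rfl fun j _ => h2 j, Finset.sum_ite_mem, Finset.univ_inter,
            ← Finset.mul_sum]
        rw [h1]
        have h5 : (2 / θ) * (((d : ℝ) + 1) * Real.log C + q * Real.log K) ≤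
            Real.log (X (t + t0)) := by
          rw [hN0] at g1; linarith
        have h6 : ((d : ℝ) + 1) * Real.log C + q * Real.log K ≤
            θ / 2 * Real.log (X (t + t0)) := by
          have := mul_le_mul_of_nonneg_left h5 (show 0 ≤ θ / 2 by positivity)
          have e1 : θ / 2 * ((2 / θ) * (((d : ℝ) + 1) * Real.log C + q * Real.log K)) =
              ((d : ℝ) + 1) * Real.log C + q * Real.log K := by field_simp
          linarith
        have h7 : (0 : ℝ) ≤ d * θ * Real.log (X (t + t0)) := by positivity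
        push_cast
        nlinarith)
    (fun t => w (t + t0)) (fun t => hw _)
    (by
      intro t
      refine ⟨fun l => ?_, fun j l => ?_⟩
      · have : ∑ j, (1 : Matrix (Fin (d + 1)) (Fin (d + 1)) ℤ) l j * w (t + t0) j =
            w (t + t0) l := by
          simp [Matrix.one_apply]
        rw [this]
        exact hsz (t + t0) l
      · by_cases h : j ∈ J ∧ l ≠ kk j
        · simp only [if_pos h, if_pos h.1]
          rw [mat_ne h.2]
          exact hpar (t + t0) j h.1 l (kk j)
        · simp only [if_neg h, pow_zero]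
          exact one_dvd _)
  refine ⟨y, hy, ?_⟩
  rw [Filter.frequently_atTop] at hfr ⊢
  intro t
  obtain ⟨s, hs, hs2⟩ := hfr t
  exact ⟨s + t0, by omega, hs2⟩

end Pool.Agent.X4.VP
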