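import Mathlib
import Pool.Agent.X4.VP.NS2

/-!
# No short dual vectors: induction on the dimension
-/

set_option autoImplicit false

namespace Pool.Agent.X4.VP

open Finset Filter Topology Pool.Agent.TH461.SST

theorem noseq {q : ℕ} (p : Fin q → ℕ) (hp : ∀ j, (p j).Prime) (hpi : Function.Injective p)
    {θ : ℝ} (hθ : 0 < θ) (hθ1 : θ ≤ 1 / 2) (a : Fin q → ℝ) {K : ℝ} (hK : 1 ≤ K) :
    ∀ (d : ℕ) (J : Finset (Fin q)) (v : Fin q → Fin d → ℤ) (C : ℝ),
      (∀ j ∈ J, v j ≠ 0) → (∀ A ⊆ J, ∑ j ∈ A, a j ≤ (1 - 2 * θ) * rk v A) → 1 ≤ C →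
      ∀ (X : ℕ → ℝ) (_ : Tendsto X atTop atTop) (_ : ∀ t, 0 < X t) (e : ℕ → Fin q → ℕ) (w : ℕ → Fin d → ℤ),
      (∀ t, ∀ j ∈ J, (p j : ℝ) ^ (e t j) ≤ K * (X t) ^ (a j)) → (∀ t, w t ≠ 0) →
      (∀ t, ∀ j ∈ J, Par (p j) (e t j) (v j) (w t)) →
      (∀ t i, |(w t i : ℝ)| ≤ C * (∏ j ∈ J, (p j : ℝ) ^ (e t j)) * (X t) ^ (-1 + θ)) → False := by
  intro d
  induction d with
  | zero =>
    intro J v C _ _ _ X _ _ e w _ hw _ _
    exact hw 0 (Subsingleton.elim _ _)
  | succ d ih =>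
    intro J v C hv hrk hC X hX hXp e w he hw hpar hsz
    classical
    obtain ⟨y, hy, hfr⟩ := step p hp hpi hθ hθ1 J v a hv
      ((hrk J subset_rfl).trans (mul_le_mul_of_nonneg_left (by exact_mod_cast rk_le v J)
        (by linarith))) hC hK X hX e w he hw hpar hsz
    obtain ⟨φ, hφ, hφ0⟩ := extraction_of_frequently_atTop hfr
    obtain ⟨i0, hi0⟩ := Function.ne_iff.1 hy
    have hi0' : y i0 ≠ 0 := hi0
    set z : Fin q → ℤ := fun j => ∑ l, y l * v j l with hz
    set J' : Finset (Fin q) := J.filter fun j => z j = 0 with hJ'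
    set R : Finset (Fin q) := J.filter fun j => ¬ z j = 0 with hR
    set c : Fin q → ℕ := fun j => (z j).natAbs.factorization (p j) with hc
    have hdiv : ∀ s, ∀ j ∈ R, ∀ i, ((p j : ℤ) ^ (e (φ s) j - c j)) ∣ w (φ s) i := by
      intro s j hj i
      rw [hR, mem_filter] at hj
      have h1 : ((p j : ℤ) ^ (e (φ s) j)) ∣ z j * w (φ s) i := by
        have e1 : z j * w (φ s) i = ∑ k, y k * (w (φ s) i * v j k - w (φ s) k * v j i) := by
          have e2 : ∑ k, y k * (w (φ s) i * v j k - w (φ s) k * v j i) =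
              (∑ k, y k * v j k) * w (φ s) i - (∑ k, y k * w (φ s) k) * v j i := by
            rw [Finset.sum_mul, Finset.sum_mul, ← Finset.sum_sub_distrib]
            exact Finset.sum_congr rfl fun k _ => by ring
          rw [e2, hφ0 s, zero_mul, sub_zero]
        rw [e1]
        exact Finset.dvd_sum fun k _ => (hpar (φ s) j hj.1 i k).mul_left _
      have hz0 : (z j).natAbs ≠ 0 := Int.natAbs_ne_zero.2 hj.2
      obtain ⟨z', hz'⟩ := Nat.ordProj_dvd (z j).natAbs (p j)
      have hpz : ¬ p j ∣ z' := by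
        have := Nat.not_dvd_ordCompl (hp j) hz0
        have e3 : (z j).natAbs / p j ^ (z j).natAbs.factorization (p j) = z' := by
          nth_rewrite 1 [hz']
          exact Nat.mul_div_cancel_left _ (pow_pos (hp j).pos _)
        rwa [e3] at this
      by_cases hec : e (φ s) j ≤ c j
      · rw [Nat.sub_eq_zero_of_le hec, pow_zero]
        exact one_dvd _
      · have h2 : (p j) ^ (e (φ s) j) ∣ (z j).natAbs * (w (φ s) i).natAbs := by
          rw [← Int.natAbs_mul]
          have := Int.natAbs_dvd_natAbs.2 h1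
          rwa [Int.natAbs_pow, Int.natAbs_natCast] at this
        rw [hz', mul_assoc] at h2
        have h3 : (p j) ^ (e (φ s) j) = (p j) ^ (c j) * (p j) ^ (e (φ s) j - c j) := by
          rw [← pow_add]; congr 1; omega
        rw [h3] at h2
        have h4 := Nat.dvd_of_mul_dvd_mul_left (pow_pos (hp j).pos _) h2
        have h5 : (p j) ^ (e (φ s) j - c j) ∣ (w (φ s) i).natAbs :=
          (Nat.Coprime.pow_left _ ((Nat.Prime.coprime_iff_not_dvd (hp j)).2 hpz)).dvd_of_dvd_mul_left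
            h4
        have := Int.natCast_dvd.2 h5
        push_cast at this
        exact this
    set P : ℕ → ℤ := fun s => ∏ j ∈ R, (p j : ℤ) ^ (e (φ s) j - c j) with hP
    have hcopZ : ∀ j j' : Fin q, j ≠ j' → IsCoprime (p j : ℤ) (p j' : ℤ) := by
      intro j j' hjj
      exact Nat.isCoprime_iff_coprime.2
        ((Nat.coprime_primes (hp j) (hp j')).2 fun h => hjj (hpi h))
    have hPd : ∀ s i, P s ∣ w (φ s) i := by
      intro s i
      apply Finset.prod_dvd_of_coprime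
      · intro j _ j' _ hjj
        exact (hcopZ j j' hjj).pow
      · exact fun j hj => hdiv s j hj i
    have hP0 : ∀ s, 0 < P s := fun s => Finset.prod_pos fun j _ =>
      pow_pos (by exact_mod_cast (hp j).pos) _
    choose w2 hw2 using hPd
    -- the new data
    refine ih J' (fun j i => v j (i0.succAbove i)) (C * ∏ j ∈ R, (p j : ℝ) ^ (c j)) ?_ ?_ ?_
      (fun s => X (φ s)) (hX.comp hφ.tendsto_atTop) (fun s => hXp _) (fun s => e (φ s))
      (fun s i => w2 s (i0.succAbove i)) ?_ ?_ ?_ ?_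
    · intro j hj h0
      rw [hJ', mem_filter] at hj
      apply hv j hj.1
      have h1 : ∀ i, v j (i0.succAbove i) = 0 := fun i => congrFun h0 i
      have h2 : z j = 0 := hj.2
      rw [hz] at h2
      simp only [Fin.sum_univ_succAbove _ i0, h1, mul_zero, Finset.sum_const_zero,
        add_zero] at h2
      have h3 := (mul_eq_zero.1 h2).resolve_left hi0'
      funext i
      rcases Fin.eq_self_or_eq_succAbove i0 i with rfl | ⟨k, rfl⟩
      · exact h3
      · exact h1 k
    · intro A hA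
      rw [rk_drop v y i0 hi0' A (fun j hj => by
        have := hA hj
        rw [hJ', mem_filter] at this
        exact this.2)]
      exact hrk A (hA.trans (filter_subset _ _))
    · have h1 : (1 : ℝ) ≤ ∏ j ∈ R, (p j : ℝ) ^ (c j) := by
        have h2 : (1 : ℕ) ≤ ∏ j ∈ R, (p j) ^ (c j) := Finset.one_le_prod' fun j _ =>
          Nat.one_le_pow _ _ (hp j).pos
        exact_mod_cast h2
      nlinarith
    · intro s j hj
      exact he (φ s) j (mem_filter.1 hj).1
    · intro s h0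
      apply hw (φ s)
      have h1 : ∀ i, w2 s (i0.succAbove i) = 0 := fun i => congrFun h0 i
      have h2 : ∀ i, w (φ s) (i0.succAbove i) = 0 := fun i => by rw [hw2, h1, mul_zero]
      have h3 := hφ0 s
      simp only [Fin.sum_univ_succAbove _ i0, h2, mul_zero, Finset.sum_const_zero,
        add_zero] at h3
      have h4 := (mul_eq_zero.1 h3).resolve_left hi0'
      funext i
      rcases Fin.eq_self_or_eq_succAbove i0 i with rfl | ⟨k, rfl⟩
      · exact h4
      · exact h2 k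
    · intro s j hj i k
      rw [hJ', mem_filter] at hj
      have h1 := hpar (φ s) j hj.1 (i0.succAbove i) (i0.succAbove k)
      rw [hw2, hw2] at h1
      have e1 : P s * w2 s (i0.succAbove i) * v j (i0.succAbove k) -
          P s * w2 s (i0.succAbove k) * v j (i0.succAbove i) =
          P s * (w2 s (i0.succAbove i) * v j (i0.succAbove k) -
          w2 s (i0.succAbove k) * v j (i0.succAbove i)) := by ring
      rw [e1] at h1
      refine IsCoprime.dvd_of_dvd_mul_left ?_ h1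
      rw [hP]
      refine IsCoprime.prod_right fun j' hj' => ?_
      rw [hR, mem_filter] at hj'
      have hne : j ≠ j' := by
        rintro rfl
        exact hj'.2 hj.2
      exact (hcopZ j j' hne).pow
    · intro s i
      have hPR : (0 : ℝ) < (P s : ℝ) := by exact_mod_cast hP0 s
      have h1 := hsz (φ s) (i0.succAbove i)
      rw [hw2] at h1
      push_cast at h1
      rw [abs_mul, abs_of_pos hPR] at h1
      have h2 : ∏ j ∈ J, (p j : ℝ) ^ (e (φ s) j) = (∏ j ∈ J', (p j : ℝ) ^ (e (φ s) j)) *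
          ∏ j ∈ R, (p j : ℝ) ^ (e (φ s) j) := by
        rw [hJ', hR, Finset.prod_filter_mul_prod_filter_not]
      have h3 : ∏ j ∈ R, (p j : ℝ) ^ (e (φ s) j) ≤ (P s : ℝ) * ∏ j ∈ R, (p j : ℝ) ^ (c j) := by
        rw [hP]
        push_cast
        rw [← Finset.prod_mul_distrib]
        refine Finset.prod_le_prod (fun j _ => by positivity) fun j _ => ?_
        rw [← pow_add]
        apply pow_le_pow_right₀ (by exact_mod_cast (hp j).one_lt.le)
        omega
      have hx0 : 0 ≤ X (φ s) ^ (-1 + θ) := Real.rpow_nonneg (hXp _).le _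
      have h4 : (P s : ℝ) * |(w2 s (i0.succAbove i) : ℝ)| ≤ (P s : ℝ) *
          (C * (∏ j ∈ R, (p j : ℝ) ^ (c j)) * (∏ j ∈ J', (p j : ℝ) ^ (e (φ s) j)) *
            X (φ s) ^ (-1 + θ)) := by
        refine h1.trans ?_
        rw [h2]
        have hJ0 : 0 ≤ ∏ j ∈ J', (p j : ℝ) ^ (e (φ s) j) :=
          Finset.prod_nonneg fun j _ => by positivity
        calc C * ((∏ j ∈ J', (p j : ℝ) ^ (e (φ s) j)) * ∏ j ∈ R, (p j : ℝ) ^ (e (φ s) j)) *
              X (φ s) ^ (-1 + θ) ≤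
            C * ((∏ j ∈ J', (p j : ℝ) ^ (e (φ s) j)) *
              ((P s : ℝ) * ∏ j ∈ R, (p j : ℝ) ^ (c j))) * X (φ s) ^ (-1 + θ) := by
              gcongr
          _ = _ := by ring
      exact le_of_mul_le_mul_left h4 hPR

/-- the uniform version -/
theorem nodual {q d : ℕ} (p : Fin q → ℕ) (hp : ∀ j, (p j).Prime) (hpi : Function.Injective p)
    {θ : ℝ} (hθ : 0 < θ) (hθ1 : θ ≤ 1 / 2) (a : Fin q → ℝ) {K : ℝ} (hK : 1 ≤ K)
    (v : Fin q → Fin d → ℤ) {C : ℝ} (hv : ∀ j, v j ≠ 0)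
    (hrk : ∀ A : Finset (Fin q), ∑ j ∈ A, a j ≤ (1 - 2 * θ) * rk v A) (hC : 1 ≤ C) :
    ∃ X0 : ℝ, 0 < X0 ∧ ∀ X : ℝ, X0 ≤ X → ∀ (e : Fin q → ℕ) (w : Fin d → ℤ),
      (∀ j, (p j : ℝ) ^ (e j) ≤ K * X ^ (a j)) → w ≠ 0 → (∀ j, Par (p j) (e j) (v j) w) →
      ∃ i, C * (∏ j, (p j : ℝ) ^ (e j)) * X ^ (-1 + θ) < |(w i : ℝ)| := by
  by_contra hcon
  push Not at hcon
  have h1 : ∀ t : ℕ, ∃ X : ℝ, (t : ℝ) + 1 ≤ X ∧ ∃ (e : Fin q → ℕ) (w : Fin d → ℤ),
      (∀ j, (p j : ℝ) ^ (e j) ≤ K * X ^ (a j)) ∧ w ≠ 0 ∧ (∀ j, Par (p j) (e j) (v j) w) ∧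
      ∀ i, |(w i : ℝ)| ≤ C * (∏ j, (p j : ℝ) ^ (e j)) * X ^ (-1 + θ) := by
    intro t
    obtain ⟨X, h2, e, w, h3, h4, h5, h6⟩ := hcon ((t : ℝ) + 1) (by positivity)
    exact ⟨X, h2, e, w, h3, h4, h5, h6⟩
  choose X hX e w h3 h4 h5 h6 using h1
  refine noseq p hp hpi hθ hθ1 a hK d Finset.univ v C (fun j _ => hv j) (fun A _ => hrk A) hC X
    ?_ (fun t => ?_) e w (fun t j _ => h3 t j) h4 (fun t j _ => h5 t j) h6
  · refine tendsto_atTop_mono (fun t => ?_) tendsto_natCast_atTop_atTop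
    have := hX t
    linarith
  · have := hX t
    have h0 : (0 : ℝ) ≤ t := Nat.cast_nonneg t
    linarith

end Pool.Agent.X4.VP
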