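import Mathlib
import Pool.Agent.X4.VP.NS3
import Pool.Agent.TH461.SST.Basis
import Pool.Agent.H393R2.Geom3

/-!
# The lattices
-/

set_option autoImplicit false

namespace Pool.Agent.X4.VP

open Finset Filter Topology Pool.Agent.TH461.SST Pool.Agent.H393R2 Pool.Agent.H393R2.Geom

/-- the sup norm of an integer vector -/
noncomputable def nn {m : ℕ} (x : Fin m → ℤ) : ℝ := ‖(fun l => (x l : ℝ))‖

theorem abs_le_nn {m : ℕ} (x : Fin m → ℤ) (l : Fin m) : |(x l : ℝ)| ≤ nn x :=
  norm_le_pi_norm (fun l => (x l : ℝ)) l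

theorem nn_nonneg {m : ℕ} (x : Fin m → ℤ) : 0 ≤ nn x := norm_nonneg _

/-- the modulus -/
def DD {q : ℕ} (p e : Fin q → ℕ) : ℕ := ∏ j, p j ^ e j

theorem DD_pos {q : ℕ} {p : Fin q → ℕ} (hp : ∀ j, (p j).Prime) (e : Fin q → ℕ) : 0 < DD p e :=
  Finset.prod_pos fun j _ => pow_pos (hp j).pos _

/-- the lattice -/
def InL {q m : ℕ} (p e : Fin q → ℕ) (v : Fin q → Fin m → ℤ) (x : Fin m → ℤ) : Prop :=
  ∀ j, ((p j : ℤ) ^ (e j)) ∣ ∑ l, v j l * x l

theorem InL.mod {q m : ℕ} {p e : Fin q → ℕ} {v : Fin q → Fin m → ℤ} {g : Matrix (Fin m) (Fin m) ℤ}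
    (h : ∀ i, InL p e v (g i)) (u : Fin m → ℤ) : InL p e v (fun l => ∑ i, u i * g i l) := by
  intro j
  have : ∑ l, v j l * (∑ i, u i * g i l) = ∑ i, u i * ∑ l, v j l * g i l := by
    simp only [Finset.mul_sum]
    rw [Finset.sum_comm]
    exact Finset.sum_congr rfl fun i _ => Finset.sum_congr rfl fun l _ => by ring
  rw [this]
  exact Finset.dvd_sum fun i _ => (h i j).mul_left _

/-- the determinant of vectors of the lattice is divisible by the modulus -/
theorem dvd_det {q m : ℕ} {p e : Fin q → ℕ} (hp : ∀ j, (p j).Prime) (hpi : Function.Injective p)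
    {v : Fin q → Fin m → ℤ} (hv : ∀ j, ∃ k, ¬ (p j : ℤ) ∣ v j k) {g : Matrix (Fin m) (Fin m) ℤ}
    (h : ∀ i, InL p e v (g i)) : (DD p e : ℤ) ∣ g.det := by
  unfold DD
  push_cast
  apply Finset.prod_dvd_of_coprime
  · intro j _ j' _ hjj
    exact (Nat.isCoprime_iff_coprime.2
      ((Nat.coprime_primes (hp j) (hp j')).2 fun h => hjj (hpi h))).pow
  · intro j _
    obtain ⟨k, hk⟩ := hv j
    have h1 : g.det * v j k = ∑ i, g.adjugate k i * ∑ l, g i l * v j l := by
      have h2 : (g.adjugate * g).mulVec (v j) = g.det • v j := by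
        rw [Matrix.adjugate_mul, Matrix.smul_mulVec, Matrix.one_mulVec]
      have h3 := congrFun h2 k
      rw [← Matrix.mulVec_mulVec] at h3
      simp only [Matrix.mulVec, dotProduct, Pi.smul_apply, smul_eq_mul] at h3
      exact h3.symm
    have h4 : ((p j : ℤ) ^ (e j)) ∣ g.det * v j k := by
      rw [h1]
      refine Finset.dvd_sum fun i _ => Dvd.dvd.mul_left ?_ _
      have := h i j
      have e1 : ∑ l, g i l * v j l = ∑ l, v j l * g i l :=
        Finset.sum_congr rfl fun l _ => mul_comm _ _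
      rwa [e1]
    have h5 : IsCoprime ((p j : ℤ) ^ (e j)) (v j k) := by
      apply IsCoprime.pow_left
      exact ((Nat.prime_iff_prime_int.1 (hp j)).coprime_iff_not_dvd).2 hk
    exact h5.dvd_of_dvd_mul_right h4

/-- the expansion of the determinant along a row -/
theorem det_upd {m : ℕ} (g : Matrix (Fin m) (Fin m) ℤ) (i : Fin m) (x : Fin m → ℤ) :
    (g.updateRow i x).det = ∑ l, g.adjugate l i * x l := by
  rw [← Matrix.cramer_transpose_apply, Matrix.cramer_eq_adjugate_mulVec,
    ← Matrix.adjugate_transpose]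
  rfl

/-- the dual vector is parallel to `v j` modulo `p j ^ e j` -/
theorem adj_par {q m : ℕ} {p e : Fin q → ℕ} (hp : ∀ j, (p j).Prime) (hpi : Function.Injective p)
    {v : Fin q → Fin m → ℤ} (hv : ∀ j, ∃ k, ¬ (p j : ℤ) ∣ v j k) {g : Matrix (Fin m) (Fin m) ℤ}
    (h : ∀ i, InL p e v (g i)) (i0 : Fin m) (j : Fin q) :
    Par (p j) (e j) (v j) (fun l => g.adjugate l i0) := by
  classical
  intro i k
  set Dj : ℤ := ∏ j' ∈ (Finset.univ : Finset (Fin q)).erase j, (p j' : ℤ) ^ (e j') with hDj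
  have hcop : IsCoprime ((p j : ℤ) ^ (e j)) Dj := by
    rw [hDj]
    refine IsCoprime.prod_right fun j' hj' => ?_
    have hne := (Finset.mem_erase.1 hj').1
    exact (Nat.isCoprime_iff_coprime.2
      ((Nat.coprime_primes (hp j) (hp j')).2 fun h => hne (hpi h).symm)).pow
  set x : Fin m → ℤ := fun l => Dj * ((if l = i then v j k else 0) - (if l = k then v j i else 0))
    with hx
  have hxL : InL p e v x := by
    intro j'
    have e1 : ∑ l, v j' l * x l = Dj * (v j' i * v j k - v j' k * v j i) := by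
      rw [hx]
      simp only [mul_sub, Finset.sum_sub_distrib, mul_ite, mul_zero]
      simp
      ring
    rw [e1]
    by_cases hjj : j' = j
    · subst hjj
      have : v j' i * v j' k - v j' k * v j' i = 0 := by ring
      rw [this, mul_zero]
      exact dvd_zero _
    · apply Dvd.dvd.mul_right
      rw [hDj]
      exact Finset.dvd_prod_of_mem (fun j' => (p j' : ℤ) ^ (e j'))
        (Finset.mem_erase.2 ⟨hjj, Finset.mem_univ _⟩)
  have h2 : (DD p e : ℤ) ∣ (g.updateRow i0 x).det := by
    apply dvd_det hp hpi hv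
    intro i'
    by_cases h3 : i' = i0
    · subst h3
      rw [Matrix.updateRow_self]
      exact hxL
    · rw [Matrix.updateRow_ne h3]
      exact h i'
  have h3 : ((p j : ℤ) ^ (e j)) ∣ (g.updateRow i0 x).det := by
    refine Dvd.dvd.trans ?_ h2
    unfold DD
    push_cast
    exact Finset.dvd_prod_of_mem (fun j' => (p j' : ℤ) ^ (e j')) (Finset.mem_univ j)
  have e2 : (g.updateRow i0 x).det = Dj * (g.adjugate i i0 * v j k - g.adjugate k i0 * v j i) := by
    rw [det_upd, hx]
    simp only [mul_sub, Finset.sum_sub_distrib, mul_ite, mul_zero]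
    simp
    ring
  rw [e2] at h3
  exact hcop.dvd_of_dvd_mul_left h3

/-- the constant -/
noncomputable def C0 (m : ℕ) : ℝ := (m.factorial : ℝ) * (2 * KK m) ^ m

theorem C0_pos {m : ℕ} (hm : 0 < m) : 0 < C0 m := by
  have := one_le_KK hm
  unfold C0
  have : 0 < m.factorial := Nat.factorial_pos m
  positivity

/-- the reduced vectors of the lattice -/
theorem exists_red {q k : ℕ} {p : Fin q → ℕ} (hp : ∀ j, (p j).Prime) (hpi : Function.Injective p)
    {v : Fin q → Fin (k + 2) → ℤ} (hv : ∀ j, ∃ i, ¬ (p j : ℤ) ∣ v j i)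
    (hpC : ∀ j, C0 (k + 2) < p j) (e : Fin q → ℕ) :
    ∃ g : Matrix (Fin (k + 2)) (Fin (k + 2)) ℤ, (∀ i, InL p e v (g i)) ∧ g.det ≠ 0 ∧
      |(g.det : ℝ)| ≤ C0 (k + 2) * DD p e ∧ ∏ i, nn (g i) ≤ C0 (k + 2) * DD p e ∧
      (∀ i i', i ≤ i' → nn (g i) ≤ nn (g i')) ∧
      (∀ ℓ : ℕ, ℓ.Prime → ¬ ℓ ∣ DD p e → ∃ l, ¬ (ℓ : ℤ) ∣ g 0 l) ∧
      (∀ j, ∃ i l, ¬ (p j : ℤ) ∣ g i l) := by
  classical
  have hm0 : 0 < k + 2 := by omega
  set D := DD p e with hD
  have hD0 : 0 < D := DD_pos hp e
  have hDR : (0 : ℝ) < D := by exact_mod_cast hD0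
  -- the basis
  obtain ⟨B, hB0, hBle, hB⟩ := Basis.basis (k + 2) q
    (fun j => fun i l => if i = (0 : Fin (k + 2)) then v j l else 0) p (fun j => (hp j).two_le)
    (fun j i => if i = (0 : Fin (k + 2)) then e j else 0)
  have hBL : ∀ y, InL p e v y ↔ ∃ z, y = B.mulVec z := by
    intro y
    rw [← hB y]
    constructor
    · intro h j l
      by_cases hl : l = (0 : Fin (k + 2))
      · simp only [if_pos hl]
        exact h j
      · simp only [if_neg hl, pow_zero]
        exact one_dvd _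
    · intro h j
      have := h j (0 : Fin (k + 2))
      simpa using this
  have hBD : B.det = D ∨ B.det = -D := by
    have h1 : (D : ℤ) ∣ B.det := by
      rw [← Matrix.det_transpose]
      apply dvd_det hp hpi hv
      intro i
      rw [hBL]
      refine ⟨Pi.single i 1, ?_⟩
      rw [Matrix.mulVec_single_one]
      rfl
    have h2 : |B.det| ≤ D := by
      refine hBle.trans (le_of_eq ?_)
      rw [hD]
      unfold DD
      push_cast
      apply Finset.prod_congr rfl
      intro j _
      rw [Finset.prod_eq_single (0 : Fin (k + 2))]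
      · simp
      · intro i _ hi
        simp [hi]
      · simp
    have h3 : (D : ℤ) ≤ |B.det| := Int.le_of_dvd (abs_pos.2 hB0) ((dvd_abs _ _).2 h1)
    have h4 : |B.det| = D := le_antisymm h2 h3
    exact abs_eq (by positivity) |>.1 h4
  -- normalisation
  set s : ℝ := (D : ℝ) ^ (-(1 / ((k + 2 : ℕ) : ℝ))) with hs
  have hs0 : 0 < s := Real.rpow_pos_of_pos hDR _
  have hsm : s ^ (k + 2) = (D : ℝ)⁻¹ := by
    rw [hs, ← Real.rpow_natCast, ← Real.rpow_mul hDR.le, neg_mul, one_div,
      inv_mul_cancel₀ (by positivity), Real.rpow_neg_one]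
  set BR : Matrix (Fin (k + 2)) (Fin (k + 2)) ℝ := B.map (fun z : ℤ => (z : ℝ)) with hBR
  have hBRdet : BR.det = (B.det : ℝ) := det_map_cast B
  set L : Matrix (Fin (k + 2)) (Fin (k + 2)) ℝ := s • BR with hL
  have hLdet : |L.det| = 1 := by
    rw [hL, Matrix.det_smul, hBRdet, Fintype.card_fin, abs_mul, abs_of_pos (by positivity), hsm]
    have : |(B.det : ℝ)| = D := by
      rcases hBD with h | h
      · rw [h]; push_cast; exact abs_of_pos hDR
      · rw [h]; push_cast; rw [abs_neg]; exact abs_of_pos hDR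
    rw [this]
    exact inv_mul_cancel₀ hDR.ne'
  have hL0 : L.det ≠ 0 := by intro h; rw [h] at hLdet; simp at hLdet
  have hLs : (L⁻¹.transpose).transpose * L = 1 := by
    rw [Matrix.transpose_transpose]
    exact Matrix.nonsing_inv_mul L (isUnit_iff_ne_zero.2 hL0)
  obtain ⟨G, hG, hmono, hmin⟩ := minima L (L⁻¹.transpose) hLs
  have hup := prod_upper L G hm0 hLdet hG hmono hmin
  have happ : ∀ x : Fin (k + 2) → ℤ, ‖app L x‖ = s * nn (B.mulVec x) := by
    intro x
    have e1 : app L x = s • (fun l => ((B.mulVec x l : ℤ) : ℝ)) := by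
      rw [app_apply, hL, Matrix.smul_mulVec]
      congr 1
      funext l
      simp [Matrix.mulVec, dotProduct, hBR]
    rw [e1, norm_smul, Real.norm_of_nonneg hs0.le]
    rfl
  set g : Matrix (Fin (k + 2)) (Fin (k + 2)) ℤ := fun i => B.mulVec (G i) with hg
  have hgG : g = G * B.transpose := by
    ext i l
    simp only [hg, Matrix.mulVec, dotProduct, Matrix.mul_apply, Matrix.transpose_apply]
    exact Finset.sum_congr rfl fun _ _ => mul_comm _ _
  have hgdet : g.det = G.det * B.det := by rw [hgG, Matrix.det_mul, Matrix.det_transpose]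
  have hprod : ∏ i, nn (g i) ≤ (2 * KK (k + 2)) ^ (k + 2) * D := by
    have h1 : ∏ i, ‖app L (G i)‖ = (D : ℝ)⁻¹ * ∏ i, nn (g i) := by
      simp only [happ, Finset.prod_mul_distrib, Finset.prod_const, Finset.card_univ,
        Fintype.card_fin, hsm]
      rfl
    rw [h1] at hup
    have h2 := mul_le_mul_of_nonneg_left hup hDR.le
    have h3 : (D : ℝ) * ((D : ℝ)⁻¹ * ∏ i, nn (g i)) = ∏ i, nn (g i) := by
      rw [← mul_assoc, mul_inv_cancel₀ hDR.ne', one_mul]
    rw [h3] at h2
    linarith
  have hK := one_le_KK hm0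
  have hfac : (1 : ℝ) ≤ (k + 2).factorial := by exact_mod_cast Nat.factorial_pos (k + 2)
  have hgle : |(g.det : ℝ)| ≤ C0 (k + 2) * D := by
    have h1 := abs_det_le (g.map (fun z : ℤ => (z : ℝ))) (fun i => nn (g i))
      (fun i l => by simpa using abs_le_nn (g i) l)
    rw [det_map_cast] at h1
    refine h1.trans ?_
    unfold C0
    have := mul_le_mul_of_nonneg_left hprod (show (0 : ℝ) ≤ (k + 2).factorial by positivity)
    linarith
  refine ⟨g, ?_, ?_, hgle, ?_, ?_, ?_, ?_⟩
  · intro i
    rw [hBL]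
    exact ⟨G i, rfl⟩
  · rw [hgdet]
    exact mul_ne_zero hG hB0
  · refine hprod.trans ?_
    unfold C0
    have h1 : (0 : ℝ) ≤ (2 * KK (k + 2)) ^ (k + 2) * D := by positivity
    nlinarith
  · intro i i' hii
    have h1 := hmono i i' hii
    rw [happ, happ] at h1
    exact le_of_mul_le_mul_left h1 hs0
  · intro ℓ hℓ hℓD
    by_contra hcon
    push Not at hcon
    -- `ℓ` divides `G 0`
    have hℓB : ¬ (ℓ : ℤ) ∣ B.det := by
      intro h
      apply hℓD
      rcases hBD with h1 | h1
      · rw [h1] at h; exact_mod_cast h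
      · rw [h1] at h
        have := (dvd_neg (a := (ℓ : ℤ)) (b := (D : ℤ))).1 h
        exact_mod_cast this
    have h1 : ∀ i, (ℓ : ℤ) ∣ G (0 : Fin (k + 2)) i := by
      intro i
      have h2 : (B.adjugate * B).mulVec (G (0 : Fin (k + 2))) = B.det • G (0 : Fin (k + 2)) := by
        rw [Matrix.adjugate_mul, Matrix.smul_mulVec, Matrix.one_mulVec]
      have h3 := congrFun h2 i
      rw [← Matrix.mulVec_mulVec] at h3
      have h4 : (ℓ : ℤ) ∣ B.adjugate.mulVec (B.mulVec (G (0 : Fin (k + 2)))) i := by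
        simp only [Matrix.mulVec, dotProduct]
        exact Finset.dvd_sum fun l _ => (hcon l).mul_left _
      rw [h3, Pi.smul_apply, smul_eq_mul] at h4
      exact ((Nat.prime_iff_prime_int.1 hℓ).dvd_or_dvd h4).resolve_left hℓB
    choose x hx using h1
    have hx2 : G (0 : Fin (k + 2)) = (ℓ : ℤ) • x := by
      funext i
      rw [Pi.smul_apply, smul_eq_mul]
      exact hx i
    have h5 : G.det = (ℓ : ℤ) * (G.updateRow (0 : Fin (k + 2)) x).det := by
      have h6 : G = G.updateRow (0 : Fin (k + 2)) ((ℓ : ℤ) • x) := by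
        rw [← hx2, Matrix.updateRow_eq_self]
      nth_rewrite 1 [h6]
      rw [Matrix.det_updateRow_smul]
    have h7 : (G.updateRow (0 : Fin (k + 2)) x).det ≠ 0 := by
      intro h
      rw [h, mul_zero] at h5
      exact hG h5
    have h8 := hmin x 0 0 le_rfl h7
    have h9 : ‖app L (G (0 : Fin (k + 2)))‖ = ℓ * ‖app L x‖ := by
      rw [hx2, map_smul]
      have : (ℓ : ℤ) • app L x = (ℓ : ℝ) • app L x := by
        ext l
        simp
      rw [this, norm_smul]
      simp
    have h10 := lam_pos L G hL0 hG (0 : Fin (k + 2))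
    have h11 : (2 : ℝ) ≤ ℓ := by exact_mod_cast hℓ.two_le
    rw [h9] at h8 h10
    have h12 : 0 < ‖app L x‖ := by
      by_contra h
      have h13 : ‖app L x‖ = 0 := le_antisymm (not_lt.1 h) (norm_nonneg _)
      rw [h13, mul_zero] at h10
      exact lt_irrefl _ h10
    nlinarith
  · intro j
    by_contra hcon
    push Not at hcon
    have hpG : ¬ (p j : ℤ) ∣ G.det := by
      intro h
      have h1 : (p j : ℤ) ≤ |G.det| := Int.le_of_dvd (abs_pos.2 hG) ((dvd_abs _ _).2 h)
      have h2 : (p j : ℝ) ≤ |(G.det : ℝ)| := by exact_mod_cast h1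
      have h3 : |(g.det : ℝ)| = |(G.det : ℝ)| * D := by
        rw [hgdet, Int.cast_mul, abs_mul]
        congr 1
        rcases hBD with h | h
        · rw [h]; push_cast; exact abs_of_pos hDR
        · rw [h]; push_cast; rw [abs_neg]; exact abs_of_pos hDR
      rw [h3] at hgle
      have h4 := le_of_mul_le_mul_right hgle hDR
      have h5 := hpC j
      linarith
    -- `p j` divides `B`
    have h1 : ∀ l i, (p j : ℤ) ∣ B l i := by
      intro l i
      have h2 : G.adjugate * g = G.det • B.transpose := by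
        rw [hgG, ← Matrix.mul_assoc, Matrix.adjugate_mul, Matrix.smul_mul, Matrix.one_mul]
      have h3 := congrFun (congrFun h2 i) l
      have h4 : (p j : ℤ) ∣ (G.adjugate * g) i l := by
        rw [Matrix.mul_apply]
        exact Finset.dvd_sum fun t _ => (hcon t l).mul_left _
      rw [h3, Matrix.smul_apply, smul_eq_mul, Matrix.transpose_apply] at h4
      exact ((Nat.prime_iff_prime_int.1 (hp j)).dvd_or_dvd h4).resolve_left hpG
    -- a vector of the lattice which is not divisible by `p j`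
    obtain ⟨i, hi⟩ := hv j
    obtain ⟨i', hii⟩ : ∃ i' : Fin (k + 2), i' ≠ i := exists_ne i
    set Dj : ℤ := ∏ j' ∈ (Finset.univ : Finset (Fin q)).erase j, (p j' : ℤ) ^ (e j') with hDj
    have hDjp : ¬ (p j : ℤ) ∣ Dj := by
      intro h
      rw [hDj, (Nat.prime_iff_prime_int.1 (hp j)).dvd_finsetProd_iff] at h
      obtain ⟨j', hj', h5⟩ := h
      have h6 := (Nat.prime_iff_prime_int.1 (hp j)).dvd_of_dvd_pow h5
      have h7 : p j ∣ p j' := by exact_mod_cast h6
      have h8 := (Nat.prime_dvd_prime_iff_eq (hp j) (hp j')).1 h7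
      exact (Finset.mem_erase.1 hj').1 (hpi h8.symm)
    set x : Fin (k + 2) → ℤ := fun l => Dj * ((if l = i' then v j i else 0) -
      (if l = i then v j i' else 0)) with hx
    have hxL : InL p e v x := by
      intro j'
      have e1 : ∑ l, v j' l * x l = Dj * (v j' i' * v j i - v j' i * v j i') := by
        rw [hx]
        simp only [mul_sub, Finset.sum_sub_distrib, mul_ite, mul_zero]
        simp
        ring
      rw [e1]
      by_cases hjj : j' = j
      · subst hjj
        have : v j' i' * v j' i - v j' i * v j' i' = 0 := by ring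
        rw [this, mul_zero]
        exact dvd_zero _
      · apply Dvd.dvd.mul_right
        rw [hDj]
        exact Finset.dvd_prod_of_mem (fun j' => (p j' : ℤ) ^ (e j'))
          (Finset.mem_erase.2 ⟨hjj, Finset.mem_univ _⟩)
    obtain ⟨z, hz⟩ := (hBL x).1 hxL
    have h9 : (p j : ℤ) ∣ x i' := by
      rw [hz]
      simp only [Matrix.mulVec, dotProduct]
      exact Finset.dvd_sum fun l _ => (h1 i' l).mul_right _
    have h10 : x i' = Dj * v j i := by
      rw [hx]
      simp [hii]
    rw [h10] at h9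
    rcases (Nat.prime_iff_prime_int.1 (hp j)).dvd_or_dvd h9 with h11 | h11
    · exact hDjp h11
    · exact hi h11

end Pool.Agent.X4.VP
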