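import Mathlib
import Pool.Agent.X4.VP.Lat

/-!
# All the reduced vectors are short
-/

set_option autoImplicit false

namespace Pool.Agent.X4.VP

open Finset Filter Topology Pool.Agent.TH461.SST Pool.Agent.H393R2 Pool.Agent.H393R2.Geom

/-- the properties of the reduced vectors -/
structure Red {q k : ℕ} (p e : Fin q → ℕ) (v : Fin q → Fin (k + 2) → ℤ) (R : ℝ)
    (g : Matrix (Fin (k + 2)) (Fin (k + 2)) ℤ) : Prop where
  mem : ∀ i, InL p e v (g i)
  det0 : g.det ≠ 0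
  detle : |(g.det : ℝ)| ≤ C0 (k + 2) * DD p e
  prodle : ∏ i, nn (g i) ≤ C0 (k + 2) * DD p e
  small : ∀ ℓ : ℕ, ℓ.Prime → ¬ ℓ ∣ DD p e → ∃ l, ¬ (ℓ : ℤ) ∣ g 0 l
  big : ∀ j, ∃ i l, ¬ (p j : ℤ) ∣ g i l
  nnle : ∀ i, nn (g i) ≤ R

theorem nn_pos {k : ℕ} {g : Matrix (Fin (k + 2)) (Fin (k + 2)) ℤ} (hg : g.det ≠ 0)
    (i : Fin (k + 2)) : 1 ≤ nn (g i) := by
  have h1 : ∃ l, g i l ≠ 0 := by
    by_contra hcon
    push Not at hcon
    exact hg (Matrix.det_eq_zero_of_row_eq_zero i hcon)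
  obtain ⟨l, hl⟩ := h1
  have h2 : (1 : ℤ) ≤ |g i l| := Int.one_le_abs hl
  have h3 : (1 : ℝ) ≤ |(g i l : ℝ)| := by exact_mod_cast h2
  exact h3.trans (abs_le_nn _ _)

theorem adj_le {k : ℕ} (g : Matrix (Fin (k + 2)) (Fin (k + 2)) ℤ) (i0 l : Fin (k + 2)) :
    nn (g i0) * |(g.adjugate l i0 : ℝ)| ≤ ((k + 2).factorial : ℝ) * ∏ i, nn (g i) := by
  classical
  have h1 : g.adjugate l i0 = (g.updateRow i0 (Pi.single l 1)).det := by
    rw [Matrix.adjugate_apply]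
  have h2 := abs_det_le ((g.updateRow i0 (Pi.single l 1)).map (fun z : ℤ => (z : ℝ)))
    (Function.update (fun i => nn (g i)) i0 1) (by
      intro i l'
      by_cases hi : i = i0
      · subst hi
        rw [Matrix.map_apply, Matrix.updateRow_self, Function.update_self]
        by_cases hl : l' = l
        · subst hl; simp
        · rw [Pi.single_eq_of_ne hl]; simp
      · rw [Matrix.map_apply, Matrix.updateRow_ne hi, Function.update_of_ne hi]
        exact abs_le_nn _ _)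
  rw [det_map_cast, ← h1, Finset.prod_update_of_mem (Finset.mem_univ i0), one_mul] at h2
  have h3 : ∏ i, nn (g i) = nn (g i0) * ∏ i ∈ Finset.univ \ {i0}, nn (g i) :=
    Finset.prod_eq_mul_prod_sdiff_singleton_of_mem (Finset.mem_univ i0) _
  rw [h3]
  calc nn (g i0) * |(g.adjugate l i0 : ℝ)| ≤
      nn (g i0) * (((k + 2).factorial : ℝ) * ∏ i ∈ Finset.univ \ {i0}, nn (g i)) :=
        mul_le_mul_of_nonneg_left h2 (nn_nonneg _)
    _ = _ := by ring

/-- the main statement on the lattices -/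
theorem exists_lat {q k : ℕ} {p : Fin q → ℕ} (hp : ∀ j, (p j).Prime) (hpi : Function.Injective p)
    {v : Fin q → Fin (k + 2) → ℤ} (hv : ∀ j, ∃ i, ¬ (p j : ℤ) ∣ v j i)
    (hpC : ∀ j, C0 (k + 2) < p j) {θ : ℝ} (hθ : 0 < θ) (hθ1 : θ ≤ 1 / 2) (a : Fin q → ℝ) {K : ℝ}
    (hK : 1 ≤ K) (hrk : ∀ A : Finset (Fin q), ∑ j ∈ A, a j ≤ (1 - 2 * θ) * rk v A) :
    ∃ X0 : ℝ, 0 < X0 ∧ ∀ X : ℝ, X0 ≤ X → ∀ e : Fin q → ℕ,
      (∀ j, (p j : ℝ) ^ (e j) ≤ K * X ^ (a j)) →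
      ∃ g, Red p e v (((k + 2).factorial : ℝ) * C0 (k + 2) * X ^ (1 - θ)) g := by
  obtain ⟨X0, hX0, h⟩ := nodual p hp hpi hθ hθ1 a hK v (C := 1)
    (fun j h0 => by
      obtain ⟨i, hi⟩ := hv j
      apply hi
      rw [h0]
      exact dvd_zero _) hrk le_rfl
  refine ⟨X0, hX0, fun X hX e he => ?_⟩
  have hXp : 0 < X := by linarith
  obtain ⟨g, h1, h2, h3, h4, h5, h6, h7⟩ := exists_red hp hpi hv hpC e
  refine ⟨g, h1, h2, h3, h4, h6, h7, fun i => ?_⟩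
  refine (h5 i (Fin.last (k + 1)) (Fin.le_last i)).trans ?_
  set i0 : Fin (k + 2) := Fin.last (k + 1) with hi0
  have hDR : (0 : ℝ) < DD p e := by exact_mod_cast DD_pos hp e
  have hDe : ((DD p e : ℕ) : ℝ) = ∏ j, (p j : ℝ) ^ (e j) := by
    unfold DD
    push_cast
    rfl
  have hw : (fun l => g.adjugate l i0) ≠ 0 := by
    intro h0
    apply h2
    have h8 := det_upd g i0 (g i0)
    rw [Matrix.updateRow_eq_self] at h8
    rw [h8]
    exact Finset.sum_eq_zero fun l _ => by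
      have := congrFun h0 l
      simp only [Pi.zero_apply] at this
      rw [this, zero_mul]
  obtain ⟨l, hl⟩ := h X hX e (fun l => g.adjugate l i0) he hw (fun j => adj_par hp hpi hv h1 i0 j)
  rw [one_mul, ← hDe] at hl
  have h9 := adj_le g i0 l
  have h10 : nn (g i0) * ((DD p e : ℝ) * X ^ (-1 + θ)) ≤
      ((k + 2).factorial : ℝ) * (C0 (k + 2) * DD p e) := by
    refine (mul_le_mul_of_nonneg_left hl.le (nn_nonneg _)).trans (h9.trans ?_)
    exact mul_le_mul_of_nonneg_left h4 (Nat.cast_nonneg _)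
  have h11 : X ^ (-1 + θ) * X ^ (1 - θ) = 1 := by
    rw [← Real.rpow_add hXp]
    norm_num
  have h12 : 0 < X ^ (-1 + θ) := Real.rpow_pos_of_pos hXp _
  have h13 : 0 < X ^ (1 - θ) := Real.rpow_pos_of_pos hXp _
  have h14 := mul_le_mul_of_nonneg_right h10 h13.le
  have e1 : nn (g i0) * ((DD p e : ℝ) * X ^ (-1 + θ)) * X ^ (1 - θ) = nn (g i0) * (DD p e : ℝ) := by
    calc _ = nn (g i0) * (DD p e : ℝ) * (X ^ (-1 + θ) * X ^ (1 - θ)) := by ring
      _ = _ := by rw [h11, mul_one]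
  rw [e1] at h14
  have e2 : ((k + 2).factorial : ℝ) * (C0 (k + 2) * DD p e) * X ^ (1 - θ) =
      ((k + 2).factorial : ℝ) * C0 (k + 2) * X ^ (1 - θ) * DD p e := by ring
  rw [e2] at h14
  exact le_of_mul_le_mul_right h14 hDR

end Pool.Agent.X4.VP
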