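import Mathlib
import Pool.Agent.X4.VP.Lat2
import Pool.Agent.X4.VP.Box
import Pool.Agent.X4.MK.Pre

/-!
# Primitive vectors of the lattices in large cubes
-/

set_option autoImplicit false

namespace Pool.Agent.X4.VP

open Finset Filter Topology MvPolynomial

theorem adj_mul_l {m : ℕ} (g : Matrix (Fin m) (Fin m) ℤ) (u : Fin m → ℤ) (i : Fin m) :
    ∑ l, (∑ i', u i' * g i' l) * g.adjugate l i = u i * g.det := by
  have h1 : ∑ l, (∑ i', u i' * g i' l) * g.adjugate l i =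
      ∑ i', u i' * (g * g.adjugate) i' i := by
    simp only [Finset.sum_mul, Matrix.mul_apply, Finset.mul_sum]
    rw [Finset.sum_comm]
    exact Finset.sum_congr rfl fun t _ => Finset.sum_congr rfl fun i _ => by ring
  rw [h1, Matrix.mul_adjugate]
  simp only [Matrix.smul_apply, Matrix.one_apply, smul_eq_mul, mul_ite, mul_one, mul_zero]
  simp

theorem adj_mul_r {m : ℕ} (g : Matrix (Fin m) (Fin m) ℤ) (hg : g.det ≠ 0) (c : Fin m → ℝ) (X : ℝ)
    (l : Fin m) :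
    ∑ i, (X * (∑ l', c l' * (g.adjugate l' i : ℝ)) / (g.det : ℝ)) * (g i l : ℝ) = X * c l := by
  have hg' : (g.det : ℝ) ≠ 0 := by exact_mod_cast hg
  have h0 : ∀ l', ∑ i, (g.adjugate l' i : ℝ) * (g i l : ℝ) = if l' = l then (g.det : ℝ) else 0 := by
    intro l'
    have h1 := congrFun (congrFun (Matrix.adjugate_mul g) l') l
    rw [Matrix.mul_apply, Matrix.smul_apply, Matrix.one_apply, smul_eq_mul, mul_ite, mul_one,
      mul_zero] at h1
    have h2 : ((∑ i, g.adjugate l' i * g i l : ℤ) : ℝ) = ((if l' = l then g.det else 0 : ℤ) : ℝ) := by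
      rw [h1]
    rw [Int.cast_ite, Int.cast_zero, Int.cast_sum] at h2
    rw [← h2]
    exact Finset.sum_congr rfl fun i _ => by rw [Int.cast_mul]
  have h1 : ∑ i, (X * (∑ l', c l' * (g.adjugate l' i : ℝ)) / (g.det : ℝ)) * (g i l : ℝ) =
      X / (g.det : ℝ) * ∑ l', c l' * ∑ i, (g.adjugate l' i : ℝ) * (g i l : ℝ) := by
    simp only [Finset.mul_sum, Finset.sum_mul, Finset.sum_div]
    rw [Finset.sum_comm]
    exact Finset.sum_congr rfl fun t _ => Finset.sum_congr rfl fun i _ => by ring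
  rw [h1]
  simp only [h0, mul_ite, mul_zero]
  rw [Finset.sum_ite_eq' Finset.univ l]
  simp only [Finset.mem_univ, if_true]
  field_simp

/-- residues -/
theorem exists_res {k : ℕ} {g : Matrix (Fin (k + 2)) (Fin (k + 2)) ℤ} (N0 : ℕ) (hN : 0 < N0)
    (h : ∀ ℓ : ℕ, ℓ.Prime → ℓ ∣ N0 → ∃ i l, ¬ (ℓ : ℤ) ∣ g i l) :
    ∃ u0 : Fin (k + 2) → ℤ, ∀ u : Fin (k + 2) → ℤ, (∀ i, (N0 : ℤ) ∣ u i - u0 i) →
      ∀ ℓ : ℕ, ℓ.Prime → ℓ ∣ N0 → ∃ l, ¬ (ℓ : ℤ) ∣ ∑ i, u i * g i l := by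
  classical
  have h' : ∀ ℓ : ℕ, ∃ i, ℓ.Prime → ℓ ∣ N0 → ∃ l, ¬ (ℓ : ℤ) ∣ g i l := by
    intro ℓ
    by_cases hℓ : ℓ.Prime ∧ ℓ ∣ N0
    · obtain ⟨i, l, hl⟩ := h ℓ hℓ.1 hℓ.2
      exact ⟨i, fun _ _ => ⟨l, hl⟩⟩
    · exact ⟨0, fun h1 h2 => absurd ⟨h1, h2⟩ hℓ⟩
  choose ι hι using h'
  refine ⟨fun i => ∏ ℓ ∈ N0.primeFactors.filter (fun ℓ => ι ℓ ≠ i), (ℓ : ℤ), ?_⟩
  intro u hu ℓ hℓ hℓN
  obtain ⟨l, hl⟩ := hι ℓ hℓ hℓN
  refine ⟨l, fun hd => ?_⟩
  have hpr := Nat.prime_iff_prime_int.1 hℓ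
  have hℓm : ℓ ∈ N0.primeFactors := Nat.mem_primeFactors.2 ⟨hℓ, hℓN, hN.ne'⟩
  have h1 : ∀ i, (ℓ : ℤ) ∣ u i - ∏ ℓ ∈ N0.primeFactors.filter (fun ℓ => ι ℓ ≠ i), (ℓ : ℤ) :=
    fun i => (Int.natCast_dvd_natCast.2 hℓN).trans (hu i)
  have h2 : ∀ i, i ≠ ι ℓ → (ℓ : ℤ) ∣ u i := by
    intro i hi
    have h3 : (ℓ : ℤ) ∣ ∏ ℓ ∈ N0.primeFactors.filter (fun ℓ => ι ℓ ≠ i), (ℓ : ℤ) :=
      Finset.dvd_prod_of_mem (fun ℓ : ℕ => (ℓ : ℤ)) (mem_filter.2 ⟨hℓm, hi.symm⟩)
    have := (h1 i).add h3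
    rwa [sub_add_cancel] at this
  have h3 : ¬ (ℓ : ℤ) ∣ u (ι ℓ) := by
    intro h4
    have h5 : (ℓ : ℤ) ∣ ∏ ℓ' ∈ N0.primeFactors.filter (fun ℓ' => ι ℓ' ≠ ι ℓ), (ℓ' : ℤ) := by
      have := h4.sub (h1 (ι ℓ))
      rwa [sub_sub_cancel] at this
    rw [hpr.dvd_finsetProd_iff] at h5
    obtain ⟨ℓ', h6, h7⟩ := h5
    rw [mem_filter] at h6
    have h8 : ℓ ∣ ℓ' := by exact_mod_cast h7
    have h9 := (Nat.prime_dvd_prime_iff_eq hℓ (Nat.prime_of_mem_primeFactors h6.1)).1 h8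
    exact h6.2 (by rw [h9])
  have h4 : (ℓ : ℤ) ∣ u (ι ℓ) * g (ι ℓ) l := by
    have h5 : ∑ i, u i * g i l = u (ι ℓ) * g (ι ℓ) l +
        ∑ i ∈ (Finset.univ : Finset (Fin (k + 2))).erase (ι ℓ), u i * g i l :=
      (Finset.add_sum_erase _ (fun i => u i * g i l) (Finset.mem_univ _)).symm
    rw [h5] at hd
    have h6 : (ℓ : ℤ) ∣ ∑ i ∈ (Finset.univ : Finset (Fin (k + 2))).erase (ι ℓ), u i * g i l :=
      Finset.dvd_sum fun i hi => (h2 i (Finset.mem_erase.1 hi).1).mul_right _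
    exact (Int.dvd_add_left h6).1 hd
  rcases hpr.dvd_or_dvd h4 with h5 | h5
  · exact h3 h5
  · exact hl h5

theorem count {q k : ℕ} {p : Fin q → ℕ} (hp : ∀ j, (p j).Prime) (hpi : Function.Injective p)
    {v : Fin q → Fin (k + 2) → ℤ} (hv : ∀ j, ∃ i, ¬ (p j : ℤ) ∣ v j i)
    (hpC : ∀ j, C0 (k + 2) < p j) {θ : ℝ} (hθ : 0 < θ) (hθ1 : θ ≤ 1 / 2) (a : Fin q → ℝ) {K : ℝ}
    (hK : 1 ≤ K) (hrk : ∀ A : Finset (Fin q), ∑ j ∈ A, a j ≤ (1 - 2 * θ) * rk v A)
    {F : MvPolynomial (Fin (k + 2)) ℤ} (hF : F ≠ 0) (c : Fin (k + 2) → ℝ) {ρ : ℝ} (hρ : 0 < ρ) :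
    ∃ c1 X0 : ℝ, 0 < c1 ∧ 0 < X0 ∧ ∀ X : ℝ, X0 ≤ X → ∀ e : Fin q → ℕ,
      (∀ j, (p j : ℝ) ^ (e j) ≤ K * X ^ (a j)) →
      ∃ S : Finset (Fin (k + 2) → ℤ), (∀ x ∈ S, InL p e v x ∧
        (∀ l, |(x l : ℝ) - X * c l| ≤ ρ * X) ∧ (∀ ℓ : ℕ, ℓ.Prime → ∃ l, ¬ (ℓ : ℤ) ∣ x l) ∧
        eval x F ≠ 0) ∧ c1 * X ^ (k + 2) / DD p e ≤ (S.card : ℝ) := by
  classical
  have hC0 : 0 < C0 (k + 2) := C0_pos (by omega)
  obtain ⟨X1, hX1, hlat⟩ := exists_lat hp hpi hv hpC hθ hθ1 a hK hrk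
  set N0 : ℕ := 6 * (⌈C0 (k + 2)⌉₊).factorial * ∏ j, p j with hN0
  have hN : 0 < N0 := by
    have h1 : 0 < ∏ j, p j := Finset.prod_pos fun j _ => (hp j).pos
    have h2 := Nat.factorial_pos ⌈C0 (k + 2)⌉₊
    positivity
  have h6 : 6 ∣ N0 := by
    rw [hN0, mul_assoc]
    exact Dvd.intro _ rfl
  have hNR : (0 : ℝ) < N0 := by exact_mod_cast hN
  obtain ⟨X2, hX2⟩ := box2 k N0 h6 hN ((k : ℝ) + 4) (θ / 2) (by positivity) (by positivity)
    F.totalDegree
  set C' : ℝ := ((k + 2).factorial : ℝ) * C0 (k + 2) with hC'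
  have hC'0 : 0 < C' := by
    have : (0 : ℝ) < (k + 2).factorial := by exact_mod_cast Nat.factorial_pos _
    positivity
  have v1 := MK.ev_pow (show 0 < ρ / (((k : ℝ) + 2) * C') by positivity)
    (show θ / 2 < θ by linarith)
  set Cc : ℝ := (∑ l, |c l|) * (((k + 2).factorial : ℝ) * (C0 (k + 2) * K ^ q)) + ρ with hCc
  obtain ⟨X3, hX3⟩ := eventually_atTop.1 (v1.and ((eventually_ge_atTop Cc).and
    (eventually_ge_atTop 1)))
  refine ⟨ρ ^ (k + 2) / (((k : ℝ) + 2) ^ (k + 2) * (4 * (N0 : ℝ) ^ (k + 2)) * C0 (k + 2)),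
    max X1 (max X2 X3), by positivity, lt_of_lt_of_le hX1 (le_max_left _ _), ?_⟩
  intro X hX e he
  have hXa : X1 ≤ X := (le_max_left _ _).trans hX
  have hXb : X2 ≤ X := ((le_max_left _ _).trans (le_max_right _ _)).trans hX
  obtain ⟨w1, w2, w3⟩ := hX3 X (((le_max_right _ _).trans (le_max_right _ _)).trans hX)
  have hX0 : 0 < X := by linarith
  obtain ⟨g, hg⟩ := hlat X hXa e he
  have hDR : (0 : ℝ) < DD p e := by exact_mod_cast DD_pos hp e
  have hn1 : ∀ i, 1 ≤ nn (g i) := nn_pos hg.det0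
  have hdet1 : 1 ≤ |(g.det : ℝ)| := by
    have : (1 : ℤ) ≤ |g.det| := Int.one_le_abs hg.det0
    exact_mod_cast this
  -- the size of `D`
  have hDle : (DD p e : ℝ) ≤ K ^ q * X ^ (k + 2) := by
    have h1 : (DD p e : ℝ) = ∏ j, (p j : ℝ) ^ (e j) := by
      unfold DD
      push_cast
      rfl
    rw [h1]
    calc ∏ j, (p j : ℝ) ^ (e j) ≤ ∏ j, (K * X ^ (a j)) :=
          Finset.prod_le_prod (fun j _ => by positivity) fun j _ => he j
      _ = K ^ q * X ^ (∑ j, a j) := by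
          rw [Finset.prod_mul_distrib, Finset.prod_const, Finset.card_univ, Fintype.card_fin,
            Real.rpow_sum_of_pos hX0]
      _ ≤ K ^ q * X ^ (k + 2) := by
          apply mul_le_mul_of_nonneg_left _ (by positivity)
          rw [← Real.rpow_natCast]
          apply Real.rpow_le_rpow_of_exponent_le w3
          have h2 := hrk Finset.univ
          have h3 : (rk v Finset.univ : ℝ) ≤ ((k + 2 : ℕ) : ℝ) := by
            exact_mod_cast rk_le v Finset.univ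
          have h4 : (1 - 2 * θ) * (rk v Finset.univ : ℝ) ≤ 1 * (rk v Finset.univ : ℝ) :=
            mul_le_mul_of_nonneg_right (by linarith) (Nat.cast_nonneg _)
          linarith
  -- the box
  obtain ⟨U, hU⟩ : ∃ U : Fin (k + 2) → ℝ, ∀ i, U i = ρ * X / (((k : ℝ) + 2) * nn (g i)) :=
    ⟨_, fun _ => rfl⟩
  obtain ⟨us, hus⟩ : ∃ us : Fin (k + 2) → ℝ, ∀ i, us i =
      X * (∑ l', c l' * (g.adjugate l' i : ℝ)) / (g.det : ℝ) := ⟨_, fun _ => rfl⟩
  have hUη : ∀ i, X ^ (θ / 2) ≤ U i := by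
    intro i
    refine w1.trans ?_
    have h1 : nn (g i) ≤ C' * X ^ (1 - θ) := hg.nnle i
    have hn0 : 0 < nn (g i) := by linarith [hn1 i]
    rw [hU i, div_mul_eq_mul_div, div_le_div_iff₀ (by positivity) (by positivity)]
    have h2 : X ^ θ * X ^ (1 - θ) = X := by
      rw [← Real.rpow_add hX0]
      norm_num
    have h3 : X ^ θ * nn (g i) ≤ X ^ θ * (C' * X ^ (1 - θ)) :=
      mul_le_mul_of_nonneg_left h1 (by positivity)
    have h4 : X ^ θ * (C' * X ^ (1 - θ)) = C' * X := by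
      calc _ = C' * (X ^ θ * X ^ (1 - θ)) := by ring
        _ = _ := by rw [h2]
    rw [h4] at h3
    calc ρ * X ^ θ * (((k : ℝ) + 2) * nn (g i)) = ρ * ((k : ℝ) + 2) * (X ^ θ * nn (g i)) := by ring
      _ ≤ ρ * ((k : ℝ) + 2) * (C' * X) := mul_le_mul_of_nonneg_left h3 (by positivity)
      _ = _ := by ring
  have hU1 : ∀ i, U i ≤ ρ * X := by
    intro i
    rw [hU i]
    apply div_le_self (by positivity)
    have := hn1 i
    have hk0 : (0 : ℝ) ≤ k := Nat.cast_nonneg k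
    nlinarith
  have hus1 : ∀ i, |us i| ≤ X * ((∑ l, |c l|) * (((k + 2).factorial : ℝ) *
      (C0 (k + 2) * DD p e))) := by
    intro i
    rw [hus i, abs_div, abs_mul, abs_of_pos hX0]
    refine (div_le_self (by positivity) hdet1).trans ?_
    apply mul_le_mul_of_nonneg_left _ hX0.le
    refine (Finset.abs_sum_le_sum_abs _ _).trans ?_
    rw [Finset.sum_mul]
    refine Finset.sum_le_sum fun l _ => ?_
    rw [abs_mul]
    apply mul_le_mul_of_nonneg_left _ (abs_nonneg _)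
    have h1 := adj_le g i l
    have h2 : |(g.adjugate l i : ℝ)| ≤ nn (g i) * |(g.adjugate l i : ℝ)| :=
      le_mul_of_one_le_left (abs_nonneg _) (hn1 i)
    refine h2.trans (h1.trans ?_)
    exact mul_le_mul_of_nonneg_left hg.prodle (Nat.cast_nonneg _)
  have hbd : |us 1| + U 1 ≤ X ^ ((k : ℝ) + 4) := by
    have h1 : |us 1| ≤ X * ((∑ l, |c l|) * (((k + 2).factorial : ℝ) *
        (C0 (k + 2) * (K ^ q * X ^ (k + 2))))) := by
      refine (hus1 1).trans ?_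
      have h0 : 0 ≤ ∑ l, |c l| := Finset.sum_nonneg fun l _ => abs_nonneg _
      gcongr
    have h2 : U 1 ≤ ρ * X ^ (k + 3) := by
      refine (hU1 1).trans ?_
      apply mul_le_mul_of_nonneg_left _ hρ.le
      calc X = X ^ 1 := (pow_one X).symm
        _ ≤ X ^ (k + 3) := pow_le_pow_right₀ w3 (by omega)
    have e1 : X * ((∑ l, |c l|) * (((k + 2).factorial : ℝ) *
        (C0 (k + 2) * (K ^ q * X ^ (k + 2))))) + ρ * X ^ (k + 3) = Cc * X ^ (k + 3) := by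
      rw [hCc]; ring
    have e2 : X ^ ((k : ℝ) + 4) = X * X ^ (k + 3) := by
      rw [show ((k : ℝ) + 4) = ((k + 4 : ℕ) : ℝ) by push_cast; ring, Real.rpow_natCast]
      ring
    rw [e2]
    calc |us 1| + U 1 ≤ Cc * X ^ (k + 3) := by rw [← e1]; exact add_le_add h1 h2
      _ ≤ X * X ^ (k + 3) := mul_le_mul_of_nonneg_right w2 (by positivity)
  -- residues
  have hℓ0 : ∀ ℓ : ℕ, ℓ.Prime → ℓ ∣ N0 → ∃ i l, ¬ (ℓ : ℤ) ∣ g i l := by
    intro ℓ hℓ _
    by_cases hd : ℓ ∣ DD p e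
    · unfold DD at hd
      rw [(Nat.prime_iff.1 hℓ).dvd_finsetProd_iff] at hd
      obtain ⟨j, _, hj⟩ := hd
      have h1 := (Nat.prime_dvd_prime_iff_eq hℓ (hp j)).1 (hℓ.dvd_of_dvd_pow hj)
      rw [h1]
      exact hg.big j
    · obtain ⟨l, hl⟩ := hg.small ℓ hℓ hd
      exact ⟨0, l, hl⟩
  obtain ⟨u0, hu0⟩ := exists_res N0 hN hℓ0
  obtain ⟨S, hS, hSc⟩ := hX2 X hXb us U hUη hbd u0 (sub F g) (sub_ne hF hg.det0) (sub_deg F g)
  let φ : (Fin (k + 2) → ℤ) → (Fin (k + 2) → ℤ) := fun u => fun l => ∑ i, u i * g i l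
  have hφ : Function.Injective φ := by
    intro u u' h
    funext i
    have h1 := adj_mul_l g u i
    have h2 := adj_mul_l g u' i
    have h3 : u i * g.det = u' i * g.det := by
      rw [← h1, ← h2]
      exact Finset.sum_congr rfl fun l _ => by
        have := congrFun h l
        simp only [φ] at this
        rw [this]
    exact mul_right_cancel₀ hg.det0 h3
  refine ⟨S.image φ, ?_, ?_⟩
  · intro x hx
    rw [mem_image] at hx
    obtain ⟨u, hu, rfl⟩ := hx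
    obtain ⟨g1, g2, g3, g4⟩ := hS u hu
    refine ⟨InL.mod hg.mem u, fun l => ?_, fun ℓ hℓ => ?_, ?_⟩
    · have h1 : ((φ u l : ℤ) : ℝ) - X * c l = ∑ i, ((u i : ℝ) - us i) * (g i l : ℝ) := by
        rw [← adj_mul_r g hg.det0 c X l]
        simp only [φ, sub_mul, Finset.sum_sub_distrib, hus]
        push_cast
        rfl
      rw [h1]
      refine (Finset.abs_sum_le_sum_abs _ _).trans ?_
      have h2 : ∀ i, |((u i : ℝ) - us i) * (g i l : ℝ)| ≤ ρ * X / ((k : ℝ) + 2) := by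
        intro i
        rw [abs_mul]
        have hn0 : 0 < nn (g i) := by linarith [hn1 i]
        calc |(u i : ℝ) - us i| * |(g i l : ℝ)| ≤ U i * nn (g i) :=
              mul_le_mul (g1 i) (abs_le_nn _ _) (abs_nonneg _) (le_trans (by positivity) (hUη i))
          _ = ρ * X / ((k : ℝ) + 2) := by
              rw [hU i]
              field_simp
      refine (Finset.sum_le_sum fun i _ => h2 i).trans ?_
      rw [Finset.sum_const, Finset.card_univ, Fintype.card_fin, nsmul_eq_mul]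
      push_cast
      apply le_of_eq
      field_simp
    · by_cases hℓN : ℓ ∣ N0
      · exact hu0 u g2 ℓ hℓ hℓN
      · by_contra hcon
        push Not at hcon
        have hpr := Nat.prime_iff_prime_int.1 hℓ
        have hdet : ¬ (ℓ : ℤ) ∣ g.det := by
          intro hd
          obtain ⟨t, ht⟩ := dvd_det hp hpi hv hg.mem
          rw [ht] at hd
          rcases hpr.dvd_or_dvd hd with h1 | h1
          · have h2 : ℓ ∣ DD p e := by exact_mod_cast h1
            unfold DD at h2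
            rw [(Nat.prime_iff.1 hℓ).dvd_finsetProd_iff] at h2
            obtain ⟨j, _, hj⟩ := h2
            have h3 := (Nat.prime_dvd_prime_iff_eq hℓ (hp j)).1 (hℓ.dvd_of_dvd_pow hj)
            apply hℓN
            rw [h3, hN0]
            exact (Finset.dvd_prod_of_mem p (Finset.mem_univ j)).mul_left _
          · have ht0 : t ≠ 0 := by
              rintro rfl
              rw [mul_zero] at ht
              exact hg.det0 ht
            have h2 : (ℓ : ℤ) ≤ |t| := Int.le_of_dvd (abs_pos.2 ht0) ((dvd_abs _ _).2 h1)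
            have h3 : (ℓ : ℝ) ≤ |(t : ℝ)| := by exact_mod_cast h2
            have h4 := hg.detle
            rw [ht] at h4
            push_cast at h4
            rw [abs_mul, abs_of_pos hDR, mul_comm (C0 (k + 2))] at h4
            have h5 := le_of_mul_le_mul_left h4 hDR
            have h6 : (ℓ : ℝ) ≤ ((⌈C0 (k + 2)⌉₊ : ℕ) : ℝ) := h3.trans (h5.trans (Nat.le_ceil _))
            have h7 : ℓ ≤ ⌈C0 (k + 2)⌉₊ := by exact_mod_cast h6
            apply hℓN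
            rw [hN0]
            exact ((Nat.dvd_factorial hℓ.pos h7).mul_left _).mul_right _
        have h1 : ∀ i, (ℓ : ℤ) ∣ u i := by
          intro i
          have h2 : (ℓ : ℤ) ∣ u i * g.det := by
            rw [← adj_mul_l g u i]
            exact Finset.dvd_sum fun l _ => (hcon l).mul_right _
          exact (hpr.dvd_or_dvd h2).resolve_right hdet
        exact g3 ℓ hℓ hℓN ⟨h1 0, h1 1⟩
    · rw [eval_sub] at g4
      exact g4
  · rw [card_image_of_injective _ hφ]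
    refine le_trans ?_ hSc
    have h1 : ∏ i, U i = (ρ * X) ^ (k + 2) / (((k : ℝ) + 2) ^ (k + 2) * ∏ i, nn (g i)) := by
      simp only [hU, Finset.prod_div_distrib, Finset.prod_mul_distrib, Finset.prod_const,
        Finset.card_univ, Fintype.card_fin, mul_pow]
    rw [h1]
    have hn0 : 0 < ∏ i, nn (g i) := Finset.prod_pos fun i _ => by linarith [hn1 i]
    have h2 : (ρ * X) ^ (k + 2) / (((k : ℝ) + 2) ^ (k + 2) * (C0 (k + 2) * DD p e)) ≤
        (ρ * X) ^ (k + 2) / (((k : ℝ) + 2) ^ (k + 2) * ∏ i, nn (g i)) := by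
      apply div_le_div_of_nonneg_left (by positivity) (by positivity)
      exact mul_le_mul_of_nonneg_left hg.prodle (by positivity)
    calc ρ ^ (k + 2) / (((k : ℝ) + 2) ^ (k + 2) * (4 * (N0 : ℝ) ^ (k + 2)) * C0 (k + 2)) *
          X ^ (k + 2) / DD p e =
        (ρ * X) ^ (k + 2) / (((k : ℝ) + 2) ^ (k + 2) * (C0 (k + 2) * DD p e)) *
          (1 / (4 * (N0 : ℝ) ^ (k + 2))) := by
          rw [mul_pow]
          field_simp
      _ ≤ _ := mul_le_mul_of_nonneg_right h2 (by positivity)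

end Pool.Agent.X4.VP
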