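import Mathlib
import Pool.Agent.X4.VP.Count
import Pool.Agent.X4.MK.Nat

/-!
# Many rational points with individually small counting functions
-/

set_option autoImplicit false

namespace Pool.Agent.X4.VP

open Finset Filter Topology MvPolynomial

/-- the radical -/
def rad (m : ℕ) : ℕ := ∏ p ∈ m.primeFactors, p

theorem rad_le_rpow {p e n : ℕ} {Y α ε : ℝ} (hp : p.Prime) (he : e ≠ 0) (hn : 0 < n)
    (hd : p ^ e ∣ n) (hnY : (n : ℝ) ≤ Y) (hα : α ≤ 1) (hε : 0 < ε)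
    (h : (p : ℝ) * (Y ^ (1 - α) / ε) ≤ ((p ^ e : ℕ) : ℝ)) :
    (rad n : ℝ) ≤ ε * (n : ℝ) ^ α := by
  obtain ⟨x, rfl⟩ := hd
  have hx : x ≠ 0 := by rintro rfl; simp at hn
  have h1 : (rad (p ^ e * x) : ℝ) ≤ (p : ℝ) * x := by exact_mod_cast MK.rd_mul_le hp he hx
  refine h1.trans ?_
  have hn0 : (0 : ℝ) < ((p ^ e * x : ℕ) : ℝ) := by exact_mod_cast hn
  have hp0 : (0 : ℝ) < p := by exact_mod_cast hp.pos
  have h2 : (((p ^ e * x : ℕ) : ℝ)) ^ (1 - α) ≤ Y ^ (1 - α) :=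
    Real.rpow_le_rpow hn0.le hnY (by linarith)
  have h3 : (((p ^ e * x : ℕ) : ℝ)) = (((p ^ e * x : ℕ) : ℝ)) ^ α *
      (((p ^ e * x : ℕ) : ℝ)) ^ (1 - α) := by
    rw [← Real.rpow_add hn0]
    norm_num
  have h4 : (p : ℝ) * ((((p ^ e * x : ℕ) : ℝ)) ^ (1 - α) / ε) ≤ ((p ^ e : ℕ) : ℝ) := by
    refine le_trans ?_ h
    gcongr
  have h5 : (((p ^ e * x : ℕ) : ℝ)) = ((p ^ e : ℕ) : ℝ) * x := by push_cast; ring
  set n : ℝ := (((p ^ e * x : ℕ) : ℝ)) with hnd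
  have hna : 0 < n ^ (1 - α) := by positivity
  have h6 : (p : ℝ) * x * n ^ (1 - α) ≤ ε * n ^ α * n ^ (1 - α) := by
    calc (p : ℝ) * x * n ^ (1 - α) = ε * ((p : ℝ) * (n ^ (1 - α) / ε)) * x := by field_simp
      _ ≤ ε * ((p ^ e : ℕ) : ℝ) * x := by gcongr
      _ = ε * n := by rw [h5]; ring
      _ = ε * (n ^ α * n ^ (1 - α)) := by rw [← h3]
      _ = _ := by ring
  exact le_of_mul_le_mul_right h6 hna

/-- distinct large primes -/
theorem exists_large_primes (q : ℕ) (B : ℝ) : ∃ p : Fin q → ℕ, (∀ j, (p j).Prime) ∧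
    Function.Injective p ∧ ∀ j, B < p j := by
  obtain ⟨s, hs⟩ := Nat.exists_strictMono_subsequence (P := fun p => p.Prime)
    (fun n => by
      obtain ⟨p, hp1, hp2⟩ := Nat.exists_infinite_primes (n + 1)
      exact ⟨p, by omega, hp2⟩)
  refine ⟨fun j => s (⌈B⌉₊ + 1 + j), fun j => hs.2 _, fun a b hab => ?_, fun j => ?_⟩
  · have := hs.1.injective hab
    exact Fin.ext (by omega)
  · have h1 : ⌈B⌉₊ + 1 + (j : ℕ) ≤ s (⌈B⌉₊ + 1 + j) := hs.1.id_le _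
    have h2 : B ≤ (⌈B⌉₊ : ℝ) := Nat.le_ceil B
    have h3 : ((⌈B⌉₊ + 1 + (j : ℕ) : ℕ) : ℝ) ≤ (s (⌈B⌉₊ + 1 + j) : ℝ) := by exact_mod_cast h1
    push_cast at h3
    have h4 : (0 : ℝ) ≤ (j : ℕ) := Nat.cast_nonneg _
    linarith

/-- a uniform gap -/
theorem exists_theta {q d : ℕ} (v : Fin q → Fin d → ℤ) (a : Fin q → ℝ)
    (h : ∀ A : Finset (Fin q), A.Nonempty → ∑ j ∈ A, a j < rk v A) :
    ∃ θ : ℝ, 0 < θ ∧ θ ≤ 1 / 2 ∧ ∀ A : Finset (Fin q), ∑ j ∈ A, a j ≤ (1 - 2 * θ) * rk v A := by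
  classical
  have h1 : ∀ A : Finset (Fin q), ∃ δ : ℝ, 0 < δ ∧ δ ≤ 1 / 2 ∧ ∀ θ : ℝ, 0 < θ → θ ≤ δ →
      ∑ j ∈ A, a j ≤ (1 - 2 * θ) * rk v A := by
    intro A
    rcases A.eq_empty_or_nonempty with hA | hA
    · refine ⟨1 / 2, by norm_num, le_rfl, fun θ h1 h2 => ?_⟩
      rw [hA, Finset.sum_empty]
      exact mul_nonneg (by linarith) (Nat.cast_nonneg _)
    · have h2 := h A hA
      have hr : (0 : ℝ) ≤ rk v A := Nat.cast_nonneg _
      refine ⟨min (1 / 2) ((rk v A - ∑ j ∈ A, a j) / (2 * (rk v A + 1))),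
        lt_min (by norm_num) (div_pos (by linarith) (by positivity)), min_le_left _ _,
        fun θ h3 h4 => ?_⟩
      have h5 := h4.trans (min_le_right _ _)
      rw [le_div_iff₀ (by positivity)] at h5
      nlinarith
  choose δ hδ0 hδ1 hδ using h1
  refine ⟨Finset.univ.inf' ⟨∅, Finset.mem_univ _⟩ δ, ?_, ?_, fun A => ?_⟩
  · rw [Finset.lt_inf'_iff]
    exact fun A _ => hδ0 A
  · exact (Finset.inf'_le δ (Finset.mem_univ ∅)).trans (hδ1 ∅)
  · refine hδ A _ ?_ (Finset.inf'_le δ (Finset.mem_univ A))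
    rw [Finset.lt_inf'_iff]
    exact fun A _ => hδ0 A

/-- the points counted -/
def Pts {q m : ℕ} (L : Fin q → Fin m → ℤ) (α : Fin q → ℝ) (ε : ℝ) (F : MvPolynomial (Fin m) ℤ)
    (c : Fin m → ℝ) (ρ X : ℝ) : Set (Fin m → ℤ) :=
  {x | (∀ ℓ : ℕ, ℓ.Prime → ∃ l, ¬ (ℓ : ℤ) ∣ x l) ∧ (∀ l, |(x l : ℝ) - X * c l| ≤ ρ * X) ∧
    eval x F ≠ 0 ∧ ∀ j, (∑ l, L j l * x l) ≠ 0 ∧
      (rad (∑ l, L j l * x l).natAbs : ℝ) ≤ ε * |((∑ l, L j l * x l : ℤ) : ℝ)| ^ (α j)}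

theorem Pts_finite {q m : ℕ} (L : Fin q → Fin m → ℤ) (α : Fin q → ℝ) (ε : ℝ)
    (F : MvPolynomial (Fin m) ℤ) (c : Fin m → ℝ) (ρ X : ℝ) : (Pts L α ε F c ρ X).Finite := by
  have h1 : (Set.univ.pi fun l : Fin m => Set.Icc ⌈X * c l - ρ * X⌉ ⌊X * c l + ρ * X⌋).Finite :=
    Set.Finite.pi fun l => Set.finite_Icc _ _
  refine h1.subset ?_
  rintro x ⟨-, h2, -⟩ l -
  have h3 := abs_le.1 (h2 l)
  exact ⟨Int.ceil_le.2 (by linarith [h3.1]), Int.le_floor.2 (by linarith [h3.2])⟩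

/-- the main theorem, general form -/
theorem main_rk {q k : ℕ} (L : Fin q → Fin (k + 2) → ℤ) (hL : ∀ j, L j ≠ 0) (α : Fin q → ℝ)
    (hα : ∀ j, α j ≤ 1)
    (hrk : ∀ A : Finset (Fin q), A.Nonempty → ∑ j ∈ A, (1 - α j) < rk L A)
    {ε : ℝ} (hε : 0 < ε) {F : MvPolynomial (Fin (k + 2)) ℤ} (hF : F ≠ 0) (c : Fin (k + 2) → ℝ)
    {ρ : ℝ} (hρ : 0 < ρ) :
    ∃ C X0 : ℝ, 0 < C ∧ ∀ X : ℝ, X0 ≤ X →
      C * X ^ ((k : ℝ) + 2 - ∑ j, (1 - α j)) ≤ ((Pts L α ε F c ρ X).ncard : ℝ) := by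
  classical
  obtain ⟨θ, hθ, hθ1, hθrk⟩ := exists_theta L (fun j => 1 - α j) hrk
  -- primes
  obtain ⟨p, hp, hpi, hpB⟩ := exists_large_primes q
    (C0 (k + 2) + ∑ j, ∑ l, |(L j l : ℝ)|)
  have hC0 : 0 < C0 (k + 2) := C0_pos (by omega)
  have hsum0 : 0 ≤ ∑ j, ∑ l, |(L j l : ℝ)| :=
    Finset.sum_nonneg fun j _ => Finset.sum_nonneg fun l _ => abs_nonneg _
  have hpC : ∀ j, C0 (k + 2) < p j := fun j => by linarith [hpB j]
  have hv : ∀ j, ∃ i, ¬ (p j : ℤ) ∣ L j i := by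
    intro j
    obtain ⟨i, hi⟩ := Function.ne_iff.1 (hL j)
    refine ⟨i, fun hd => ?_⟩
    have hi' : L j i ≠ 0 := hi
    have h1 : (p j : ℤ) ≤ |L j i| := Int.le_of_dvd (abs_pos.2 hi') ((dvd_abs _ _).2 hd)
    have h2 : (p j : ℝ) ≤ |(L j i : ℝ)| := by exact_mod_cast h1
    have h3 : |(L j i : ℝ)| ≤ ∑ l, |(L j l : ℝ)| :=
      Finset.single_le_sum (f := fun l => |(L j l : ℝ)|) (fun l _ => abs_nonneg _)
        (Finset.mem_univ i)
    have h4 : ∑ l, |(L j l : ℝ)| ≤ ∑ j, ∑ l, |(L j l : ℝ)| :=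
      Finset.single_le_sum (f := fun j => ∑ l, |(L j l : ℝ)|)
        (fun j _ => Finset.sum_nonneg fun l _ => abs_nonneg _) (Finset.mem_univ j)
    linarith [hpB j]
  -- the size of the values
  set M : ℝ := 1 + ε + (∑ j, ∑ l, |(L j l : ℝ)| * (|c l| + ρ)) with hM
  have hM1 : 1 ≤ M := by
    have : 0 ≤ ∑ j, ∑ l, |(L j l : ℝ)| * (|c l| + ρ) :=
      Finset.sum_nonneg fun j _ => Finset.sum_nonneg fun l _ => by positivity
    rw [hM]; linarith
  have hMε : ε ≤ M := by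
    have : 0 ≤ ∑ j, ∑ l, |(L j l : ℝ)| * (|c l| + ρ) :=
      Finset.sum_nonneg fun j _ => Finset.sum_nonneg fun l _ => by positivity
    rw [hM]; linarith
  -- `K`
  set K : ℝ := 1 + ∑ j, (p j : ℝ) ^ 2 * (max 1 (M ^ (1 - α j) / ε)) with hK
  have hKj : ∀ j, (p j : ℝ) ^ 2 * (max 1 (M ^ (1 - α j) / ε)) ≤ K := by
    intro j
    have h1 : (p j : ℝ) ^ 2 * (max 1 (M ^ (1 - α j) / ε)) ≤
        ∑ j, (p j : ℝ) ^ 2 * (max 1 (M ^ (1 - α j) / ε)) :=
      Finset.single_le_sum (f := fun j => (p j : ℝ) ^ 2 * (max 1 (M ^ (1 - α j) / ε)))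
        (fun j _ => by positivity) (Finset.mem_univ j)
    rw [hK]; linarith
  have hK1 : 1 ≤ K := by
    have : 0 ≤ ∑ j, (p j : ℝ) ^ 2 * (max 1 (M ^ (1 - α j) / ε)) :=
      Finset.sum_nonneg fun j _ => by positivity
    rw [hK]; linarith
  -- the product with the linear forms
  set Lin : Fin q → MvPolynomial (Fin (k + 2)) ℤ := fun j => ∑ l, C (L j l) * X l with hLin
  have hLe : ∀ j (x : Fin (k + 2) → ℤ), eval x (Lin j) = ∑ l, L j l * x l := by
    intro j x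
    simp [hLin]
  have hLin0 : ∀ j, Lin j ≠ 0 := by
    intro j h0
    apply hL j
    funext i
    have h1 := hLe j (Pi.single i 1)
    rw [h0, map_zero] at h1
    simpa [Pi.single_apply] using h1.symm
  have hF2 : F * ∏ j, Lin j ≠ 0 :=
    mul_ne_zero hF (Finset.prod_ne_zero_iff.2 fun j _ => hLin0 j)
  obtain ⟨c1, X0, hc1, hX0, hcnt⟩ := count hp hpi hv hpC hθ hθ1 (fun j => 1 - α j) hK1 hθrk hF2 c hρ
  refine ⟨c1 / K ^ q, max X0 1, by positivity, fun X hX => ?_⟩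
  have hXa : X0 ≤ X := (le_max_left _ _).trans hX
  have hX1 : 1 ≤ X := (le_max_right _ _).trans hX
  have hXp : 0 < X := by linarith
  have hY : ∀ j, 1 ≤ max 1 ((M * X) ^ (1 - α j) / ε) := fun j => le_max_left _ _
  have hex := fun j => MK.exists_exp (hp j) (hY j)
  choose e he0 he1 he2 using hex
  have hα' : ∀ j, 0 ≤ 1 - α j := fun j => by linarith [hα j]
  have he : ∀ j, (p j : ℝ) ^ (e j) ≤ K * X ^ (1 - α j) := by
    intro j
    have h1 := he2 j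
    push_cast at h1
    refine h1.trans ?_
    have h2 : max 1 ((M * X) ^ (1 - α j) / ε) ≤ max 1 (M ^ (1 - α j) / ε) * X ^ (1 - α j) := by
      have h3 : 1 ≤ X ^ (1 - α j) := Real.one_le_rpow hX1 (hα' j)
      apply max_le
      · calc (1 : ℝ) = 1 * 1 := by ring
          _ ≤ _ := mul_le_mul (le_max_left _ _) h3 zero_le_one (by positivity)
      · rw [Real.mul_rpow (by positivity) hXp.le, mul_div_right_comm]
        exact mul_le_mul_of_nonneg_right (le_max_right _ _) (by positivity)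
    calc (p j : ℝ) ^ 2 * max 1 ((M * X) ^ (1 - α j) / ε) ≤
        (p j : ℝ) ^ 2 * (max 1 (M ^ (1 - α j) / ε) * X ^ (1 - α j)) := by gcongr
      _ = ((p j : ℝ) ^ 2 * max 1 (M ^ (1 - α j) / ε)) * X ^ (1 - α j) := by ring
      _ ≤ K * X ^ (1 - α j) := mul_le_mul_of_nonneg_right (hKj j) (by positivity)
  obtain ⟨S, hS, hSc⟩ := hcnt X hXa e he
  have hsub : (S : Set (Fin (k + 2) → ℤ)) ⊆ Pts L α ε F c ρ X := by
    intro x hx
    obtain ⟨g1, g2, g3, g4⟩ := hS x hx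
    rw [map_mul, map_prod] at g4
    have g5 := left_ne_zero_of_mul g4
    have g6 := right_ne_zero_of_mul g4
    rw [Finset.prod_ne_zero_iff] at g6
    refine ⟨g3, g2, g5, fun j => ?_⟩
    have g7 := g6 j (Finset.mem_univ j)
    rw [hLe] at g7
    refine ⟨g7, ?_⟩
    have hn : 0 < (∑ l, L j l * x l).natAbs := Int.natAbs_pos.2 g7
    have hcast : (((∑ l, L j l * x l).natAbs : ℕ) : ℝ) = |((∑ l, L j l * x l : ℤ) : ℝ)| := by
      rw [Nat.cast_natAbs, Int.cast_abs]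
    rw [← hcast]
    apply rad_le_rpow (hp j) (he0 j).ne' hn (Y := M * X) _ _ (hα j) hε
    · refine le_trans ?_ (he1 j)
      exact mul_le_mul_of_nonneg_left (le_max_right _ _) (Nat.cast_nonneg _)
    · have := g1 j
      have h2 := Int.natAbs_dvd_natAbs.2 this
      rwa [Int.natAbs_pow, Int.natAbs_natCast] at h2
    · rw [hcast, Int.cast_sum]
      refine (Finset.abs_sum_le_sum_abs _ _).trans ?_
      have h1 : ∀ l, |((L j l * x l : ℤ) : ℝ)| ≤ |(L j l : ℝ)| * (|c l| + ρ) * X := by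
        intro l
        push_cast
        rw [abs_mul, mul_assoc]
        apply mul_le_mul_of_nonneg_left _ (abs_nonneg _)
        have h2 := g2 l
        have h3 : |(x l : ℝ)| ≤ |(x l : ℝ) - X * c l| + |X * c l| := by
          have := abs_add_le ((x l : ℝ) - X * c l) (X * c l)
          rwa [sub_add_cancel] at this
        rw [abs_mul, abs_of_pos hXp] at h3
        linarith
      refine (Finset.sum_le_sum fun l _ => h1 l).trans ?_
      rw [← Finset.sum_mul]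
      apply mul_le_mul_of_nonneg_right _ hXp.le
      have h4 : ∑ l, |(L j l : ℝ)| * (|c l| + ρ) ≤ ∑ j, ∑ l, |(L j l : ℝ)| * (|c l| + ρ) :=
        Finset.single_le_sum (f := fun j => ∑ l, |(L j l : ℝ)| * (|c l| + ρ))
          (fun j _ => Finset.sum_nonneg fun l _ => by positivity) (Finset.mem_univ j)
      rw [hM]; linarith
  have hcard : (S.card : ℝ) ≤ ((Pts L α ε F c ρ X).ncard : ℝ) := by
    have h1 := Set.ncard_le_ncard hsub (Pts_finite L α ε F c ρ X)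
    rw [Set.ncard_coe_finset] at h1
    exact_mod_cast h1
  refine le_trans ?_ (hSc.trans hcard)
  have hDR : (0 : ℝ) < DD p e := by exact_mod_cast DD_pos hp e
  have hDle : (DD p e : ℝ) ≤ K ^ q * X ^ (∑ j, (1 - α j)) := by
    have h1 : (DD p e : ℝ) = ∏ j, (p j : ℝ) ^ (e j) := by
      unfold DD
      push_cast
      rfl
    rw [h1]
    calc ∏ j, (p j : ℝ) ^ (e j) ≤ ∏ j, (K * X ^ (1 - α j)) :=
          Finset.prod_le_prod (fun j _ => by positivity) fun j _ => he j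
      _ = K ^ q * X ^ (∑ j, (1 - α j)) := by
          rw [Finset.prod_mul_distrib, Finset.prod_const, Finset.card_univ, Fintype.card_fin,
            Real.rpow_sum_of_pos hXp]
  rw [le_div_iff₀ hDR]
  calc c1 / K ^ q * X ^ ((k : ℝ) + 2 - ∑ j, (1 - α j)) * DD p e ≤
      c1 / K ^ q * X ^ ((k : ℝ) + 2 - ∑ j, (1 - α j)) * (K ^ q * X ^ (∑ j, (1 - α j))) := by
        gcongr
    _ = c1 * (X ^ ((k : ℝ) + 2 - ∑ j, (1 - α j)) * X ^ (∑ j, (1 - α j))) := by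
        field_simp
    _ = c1 * X ^ (k + 2) := by
        rw [← Real.rpow_add hXp, sub_add_cancel, ← Real.rpow_natCast]
        push_cast
        rfl

/-- the rank of independent vectors -/
theorem rk_indep {q d : ℕ} {L : Fin q → Fin d → ℤ} {A : Finset (Fin q)}
    (h : LinearIndependent ℚ (fun (j : A) (l : Fin d) => (L j l : ℚ))) : rk L A = A.card := by
  have h1 := finrank_span_eq_card h
  rw [Fintype.card_coe] at h1
  have h2 : ((fun j => qv (L j)) '' (A : Set (Fin q))) =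
      Set.range (fun (j : A) (l : Fin d) => (L j l : ℚ)) := by
    ext x
    constructor
    · rintro ⟨j, hj, rfl⟩
      exact ⟨⟨j, by simpa using hj⟩, rfl⟩
    · rintro ⟨j, rfl⟩
      exact ⟨j, by simp, rfl⟩
  unfold rk
  rw [h2, h1]

theorem rk_mono {q d : ℕ} {L : Fin q → Fin d → ℤ} {A B : Finset (Fin q)} (h : A ⊆ B) :
    rk L A ≤ rk L B := by
  unfold rk
  apply Submodule.finrank_mono
  apply Submodule.span_mono
  apply Set.image_mono
  exact_mod_cast h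

/-- forms in general position -/
theorem gp_cond {q n : ℕ} {L : Fin q → Fin n → ℤ}
    (hgp : ∀ A : Finset (Fin q), A.card ≤ n →
      LinearIndependent ℚ (fun (j : A) (l : Fin n) => (L j l : ℚ))) {α : Fin q → ℝ}
    (hα0 : ∀ j, 0 < α j) (hα1 : ∀ j, α j ≤ 1) (hs : (q : ℝ) - n < ∑ j, α j)
    (A : Finset (Fin q)) (hA : A.Nonempty) : ∑ j ∈ A, (1 - α j) < rk L A := by
  classical
  rcases le_or_gt A.card n with h | h
  · rw [rk_indep (hgp A h)]
    calc ∑ j ∈ A, (1 - α j) < ∑ j ∈ A, (1 : ℝ) :=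
          Finset.sum_lt_sum_of_nonempty hA fun j _ => by linarith [hα0 j]
      _ = A.card := by simp
  · obtain ⟨B, hB, hBc⟩ := Finset.exists_subset_card_eq h.le
    have h1 : n ≤ rk L A := by
      calc n = B.card := hBc.symm
        _ = rk L B := (rk_indep (hgp B hBc.le)).symm
        _ ≤ rk L A := rk_mono hB
    have h2 : (n : ℝ) ≤ rk L A := by exact_mod_cast h1
    have h3 : ∑ j ∈ A, (1 - α j) ≤ ∑ j, (1 - α j) :=
      Finset.sum_le_sum_of_subset_of_nonneg (Finset.subset_univ _) fun j _ _ => by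
        linarith [hα1 j]
    have h4 : ∑ j, (1 - α j) = q - ∑ j, α j := by
      rw [Finset.sum_sub_distrib]
      simp
    linarith

end Pool.Agent.X4.VP
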